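import Pool.Agent.Lib.TTC.AllC
import Pool.Agent.Lib.TTC.ShaCongr

/-!
# The Tate conjecture in all codimensions for fibre products of elliptic surfaces

`k` is a finite field with `q` elements, `q` odd, `n` is a natural number (odd or even) and
`E_i : y ^ 2 = x (x - a_i) (x - b_i)`, `i = 1, ..., n`, are elliptic curves over `k (t)`,
`a_i, b_i ∈ k[t]`, such that the product of all the polynomials `a_i`, `b_i`, `a_i - b_i` is
squarefree and `a_i`, `b_i`, `a_i - b_i` have for each `i` the same even degree `> 0` (`Family`):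
`E_i` has good reduction at infinity, multiplicative reduction at the primes dividing
`a_i b_i (a_i - b_i)`, good reduction at the other primes, and different `E_i` have different bad
places. Let `D` be monic and squarefree, prime to all `a_i b_i (a_i - b_i)` (`IsTwist`), let `C_D`
be the curve `y ^ 2 = D` and `S_i` the minimal elliptic surface of `E_i` over the projective line.

THE VARIETY. `Y = S_1 × ... × S_n × C_D` (fibre product over the projective line) is smooth and
projective of dimension `n + 1`. The fixed points of the involution `τ = (-1, ..., -1)` of `Y` (`-1`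
on every `S_i` and the hyperelliptic involution of `C_D`) are the points of order at most `2` of the
fibres over the branch points of `C_D`, and `τ` is `-1` on the tangent spaces. So

  `W_D = (blow-up of Y in the fixed points of τ) / τ`

is a smooth projective variety of dimension `n + 1` over `k`, fibred over the projective line with
the generic fibre `E_1 ^ D × ... × E_n ^ D`, the product of the quadratic twists.

TATE CLASSES. By the decomposition theorem and the Kuenneth formula `H ^ (2 j) (W_D)` is the direct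
sum of a part spanned by classes of algebraic cycles, of the cohomology of products of elliptic
curves over finite fields (in the bad fibres; here the Tate conjecture is known), and of Tate twists
of the groups `H ^ 1 (ℙ ^ 1, j_* V_(I, D))`, where `I` runs over the subsets of `{1, ..., n}` with
an ODD number `m` of elements and `V_(I, D)` is the tensor product of the `H ^ 1 (E_i)`, `i ∈ I`,
twisted by the quadratic character `χ_D`. The Tate classes in `H ^ 1 (ℙ ^ 1, j_* V_(I, D))` are the
locally trivial classes in `H ^ 1 (k (t), T ⊗ ℚ_2)`, where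

  `T = T_2(E_1) ⊗ ... ⊗ T_2(E_m) ⊗ ℤ_2(-(m - 1) / 2) ⊗ χ_D`   (for `I = {1, ..., m}`),

so their dimension is the corank of the group `Ш` of the locally trivial classes in
`H ^ 1 (k (t), T ⊗ ℚ_2 / ℤ_2)` (`ModN` with the action `actN`).

THEOREM. Let the degree of `D` go to infinity. For all `D` outside a set of density `0`:
(1) for every `I` with an odd number `m ≥ 3` of elements this group `Ш` is finite (`ShaNFinite`):
there are no Tate classes in `H ^ 1 (ℙ ^ 1, j_* V_(I, D))`;
(2) for every `i` the order of vanishing of the `L`-function of `E_i ^ D` at `s = 1` is the corank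
of the `2`-power Selmer group, and is at most `1` (`Ord`: the corank of the Selmer group of
`V = E_i ^ D [2 ^ ∞]` is equal to that of `V ⊗ Z[ε] / ε ^ 2`, and at most `1`). For `p > 3` the
conjecture of Birch and Swinnerton-Dyer for `E_i ^ D` follows (Tate, Milne; Gross and Zagier in
the case of order `1`), that is, the Tate conjecture for the elliptic surface of `E_i ^ D`.
So for `p > 3` the Tate conjecture holds in all codimensions for `100` per cent of the `W_D`.

`Gal(K_v ^ s / K_v)` is the decomposition group of a place of a separable closure `Ω` of `K = k (t)`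
above `v`, and all places of `Ω` are used; the places are the nontrivial valuation rings of `Ω`
which contain `k`. `Tate` and `tateMap` are defined in `Pool/Agent/Lib/TTC/TateD.lean`, the Selmer
groups and their coranks in `Pool/Agent/Lib/Sm/L/Stmt.lean` and `StmtW.lean`.
-/

set_option autoImplicit false

open Polynomial TensorProduct

namespace Pool.Agent.Results.MP_950c68_ag.AllCodimensions

/-- The elliptic curve `y ^ 2 = x (x - a) (x - b) = x ^ 3 - (a + b) x ^ 2 + a b x` over `k (t)`. -/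
noncomputable def curve {k : Type} [Field k] (a b : k[X]) : WeierstrassCurve (RatFunc k) where
  a₁ := 0
  a₂ := -algebraMap k[X] (RatFunc k) (a + b)
  a₃ := 0
  a₄ := algebraMap k[X] (RatFunc k) (a * b)
  a₆ := 0

section

variable (k : Type) {K Ω : Type} [Field k] [Field K] [Field Ω] [Algebra k K] [Algebra K Ω]
variable {M : Type} [AddCommGroup M] (ρ : (Ω ≃ₐ[K] Ω) → M →+ M)

/-- `ψ` is a continuous crossed homomorphism `Gal(Ω/K) → M` (`M` discrete, with the action `ρ`)
whose class in `H ^ 1` is trivial at every place: on the decomposition group of every nontrivial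
valuation ring of `Ω` which contains `k`. -/
structure LocallyTrivial (ψ : (Ω ≃ₐ[K] Ω) → M) : Prop where
  cocycle : ∀ s t, ψ (s * t) = ψ s + ρ s (ψ t)
  cont : ∃ L : IntermediateField K Ω, FiniteDimensional K L ∧
    ∀ s t : Ω ≃ₐ[K] Ω, (∀ x ∈ L, s x = t x) → ψ s = ψ t
  loc : ∀ w : ValuationSubring Ω, w ≠ ⊤ → (∀ c : k, algebraMap K Ω (algebraMap k K c) ∈ w) →
    ∃ Q : M, ∀ s ∈ w.decompositionSubgroup K, ψ s = ρ s Q - Q

/-- `ψ` and `φ` have the same class in `H ^ 1`. -/
def Cohomologous (ψ φ : (Ω ≃ₐ[K] Ω) → M) : Prop := ∃ T : M, ∀ s, ψ s - φ s = ρ s T - T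

/-- The group `Ш` of the locally trivial classes in `H ^ 1 (K, M)` is finite. -/
def ShaFinite : Prop :=
  ∃ S : Set ((Ω ≃ₐ[K] Ω) → M), S.Finite ∧
    ∀ ψ, LocallyTrivial k ρ ψ → ∃ φ ∈ S, Cohomologous ρ ψ φ

end

section

variable {K : Type} [Field K] (Ω : Type) [Field Ω] [Algebra K Ω] {n : ℕ}

/-- The `2`-adic Tate module `T_2 (W)`: the sequences `P_0 = 0, P_1, P_2, ...` in `W (Ω)` with
`2 P_{i+1} = P_i`. -/
def T2 (W : WeierstrassCurve K) : Type := TTC.Tate (Sm.L.Pts Ω W)

noncomputable instance (W : WeierstrassCurve K) : AddCommGroup (T2 Ω W) :=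
  AddSubgroup.toAddCommGroup (TTC.TateG (Sm.L.Pts Ω W))

noncomputable instance (W : WeierstrassCurve K) : Module ℤ_[2] (T2 Ω W) :=
  TTC.instModulePadicIntOfNatNatTate

/-- The action of `s` on `T_2 (W)`. -/
noncomputable def actT2 (W : WeierstrassCurve K) (s : Ω ≃ₐ[K] Ω) : T2 Ω W →ₗ[ℤ_[2]] T2 Ω W :=
  TTC.tateMap (Sm.L.gal Ω W s)

/-- `T_2 (W 1) ⊗ ... ⊗ T_2 (W n) ⊗ ℚ_2 / ℤ_2`, tensor products over `ℤ_2`. -/
def ModN (W : Fin n → WeierstrassCurve K) : Type :=
  (⨂[ℤ_[2]] i, T2 Ω (W i)) ⊗[ℤ_[2]] (ℚ_[2] ⧸ (1 : Submodule ℤ_[2] ℚ_[2]))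

noncomputable instance (W : Fin n → WeierstrassCurve K) : AddCommGroup (ModN Ω W) :=
  TensorProduct.addCommGroup

noncomputable instance (W : Fin n → WeierstrassCurve K) : Module ℤ_[2] (ModN Ω W) :=
  TensorProduct.instModule

/-- The action of `s` on `ModN Ω W` by the tensor product of the actions on the Tate modules. -/
noncomputable def actMod (W : Fin n → WeierstrassCurve K) (s : Ω ≃ₐ[K] Ω) :
    ModN Ω W →ₗ[ℤ_[2]] ModN Ω W :=
  TensorProduct.map (PiTensorProduct.map fun i => actT2 Ω (W i) s) LinearMap.id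

/-- The quadratic character of `d ∈ K`: `1` if `s` fixes the square roots of `d` in `Ω`, otherwise
`-1`. -/
noncomputable def quadChar (d : K) (s : Ω ≃ₐ[K] Ω) : ℤ :=
  open Classical in if ∀ r : Ω, r ^ 2 = algebraMap K Ω d → s r = r then 1 else -1

/-- The power `-m` of the `2`-adic cyclotomic character. -/
noncomputable def cycPow (m : ℕ) (s : Ω ≃ₐ[K] Ω) : ℤ_[2]ˣ :=
  (cyclotomicCharacter Ω 2 s.toRingEquiv)⁻¹ ^ m

/-- The action of `s` on `ModN Ω W`, twisted by the power `-m` of the cyclotomic character and by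
the quadratic character of `d`. -/
noncomputable def actN (W : Fin n → WeierstrassCurve K) (m : ℕ) (d : K) (s : Ω ≃ₐ[K] Ω) :
    ModN Ω W →+ ModN Ω W :=
  quadChar Ω d s • ((cycPow Ω m s : ℤ_[2]) • actMod Ω W s).toAddMonoidHom

end

section

variable {k : Type} [Field k] {n : ℕ}

/-- The product of the polynomials `a_i b_i (a_i - b_i)`. -/
noncomputable def badP (a b : Fin n → k[X]) : k[X] := ∏ i, (a i * b i * (a i - b i))

/-- The hypotheses on the curves `y ^ 2 = x (x - a_i) (x - b_i)`: the product of all the polynomials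
`a_i`, `b_i`, `a_i - b_i` is squarefree, and for each `i` the three polynomials `a_i`, `b_i`,
`a_i - b_i` have the same degree, which is even and positive. -/
structure Family (a b : Fin n → k[X]) : Prop where
  squarefree : Squarefree (badP a b)
  deg_b : ∀ i, (b i).natDegree = (a i).natDegree
  deg_sub : ∀ i, (a i - b i).natDegree = (a i).natDegree
  even : ∀ i, Even (a i).natDegree
  pos : ∀ i, 0 < (a i).natDegree

/-- The twists: the monic squarefree polynomials of degree `N` prime to `badP a b`. -/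
def IsTwist (a b : Fin n → k[X]) (N : ℕ) (D : k[X]) : Prop :=
  D.Monic ∧ Squarefree D ∧ IsCoprime D (badP a b) ∧ D.natDegree = N

/-- The number of the twists of degree `N` with the property `P`. -/
noncomputable def count (a b : Fin n → k[X]) (N : ℕ) (P : k[X] → Prop) : ℝ :=
  Nat.card {D : k[X] // IsTwist a b N D ∧ P D}

/-- The group of the locally trivial classes in `H ^ 1 (k (t), N_D)` is finite, where `N_D` is the
tensor product of the Tate modules of the curves `y ^ 2 = x (x - a_i) (x - b_i)`, tensored with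
`ℚ_2 / ℤ_2` and twisted by the power `-(n - 1) / 2` of the cyclotomic character and by the quadratic
character of `D`. -/
def ShaNFinite (a b : Fin n → k[X]) (D : k[X]) : Prop :=
  ShaFinite k (actN (SeparableClosure (RatFunc k)) (fun i => curve (a i) (b i)) ((n - 1) / 2)
    (algebraMap k[X] (RatFunc k) D))

/-- For `E : y ^ 2 = x (x - D a) (x - D b)` the Selmer groups of `V = E[2 ^ ∞]` and of
`V ⊗ Z[ε] / ε ^ 2` have the same corank `r ≤ 1`: the order of vanishing of `L (E, s)` at `s = 1` is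
`r`. -/
def Ord (a b D : k[X]) : Prop :=
  Sm.L.OrdOn k (SeparableClosure (RatFunc k)) (curve (D * a) (D * b))

theorem curve_eq (a b : k[X]) : curve a b = Sm.L.crv2 a b := by
  ext <;> simp [curve, SmithE.crv]

section

variable {K : Type} [Field K] (Ω : Type) [Field Ω] [Algebra K Ω]

section

variable (k) {Ω} [Algebra k K] {M : Type} [AddCommGroup M] (ρ : (Ω ≃ₐ[K] Ω) → M →+ M)

private theorem isSha_iff (ψ : (Ω ≃ₐ[K] Ω) → M) : SmJ.L.IsSha k ρ ψ ↔ LocallyTrivial k ρ ψ :=
  ⟨fun h => ⟨h.1, h.2, h.3⟩, fun h => ⟨h.1, h.2, h.3⟩⟩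

private theorem mk_eq_iff (x y : SmJ.L.ZSha k ρ) :
    (QuotientAddGroup.mk x : SmJ.L.Sha k ρ) = QuotientAddGroup.mk y ↔
      Cohomologous ρ x.1 y.1 := by
  rw [QuotientAddGroup.eq, AddSubgroup.mem_addSubgroupOf]
  constructor
  · rintro ⟨T, hT⟩
    refine ⟨-T, fun s => ?_⟩
    have h1 : -x.1 s + y.1 s = ρ s T - T := hT s
    rw [map_neg, ← neg_sub', ← h1]
    abel
  · rintro ⟨T, hT⟩
    refine ⟨-T, fun s => ?_⟩
    change -x.1 s + y.1 s = _
    rw [map_neg, ← neg_sub', ← hT s]
    abel

private theorem shaFinite_of (P : SmJ.L.Sha k ρ → Prop) (h : Finite {x // P x}) :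
    ∃ S : Set ((Ω ≃ₐ[K] Ω) → M), S.Finite ∧
      ∀ ψ, ∀ hψ : SmJ.L.IsSha k ρ ψ, P (QuotientAddGroup.mk ⟨ψ, hψ⟩) →
        ∃ φ ∈ S, Cohomologous ρ ψ φ := by
  refine ⟨Set.range fun x : {x // P x} => (Quotient.out x.1 : SmJ.L.ZSha k ρ).1,
    Set.finite_range _, fun ψ hψ hP => ⟨_, ⟨⟨_, hP⟩, rfl⟩, ?_⟩⟩
  refine (mk_eq_iff k ρ ⟨ψ, hψ⟩ _).1 ?_
  exact (QuotientAddGroup.out_eq' _).symm

private theorem shaFinite_iff : ShaFinite k ρ ↔ Finite (SmJ.L.Sha k ρ) := by
  constructor
  · rintro ⟨S, hS, h⟩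
    have := hS.to_subtype
    choose f hf hf' using fun x : SmJ.L.Sha k ρ =>
      h (Quotient.out x : SmJ.L.ZSha k ρ).1 ((isSha_iff k ρ _).1 (Quotient.out x).2)
    refine Finite.of_injective (β := S) (fun x => ⟨f x, hf x⟩) fun x y hxy => ?_
    have h1 : f x = f y := congrArg Subtype.val hxy
    obtain ⟨T, hT⟩ := hf' x
    obtain ⟨T', hT'⟩ := hf' y
    rw [← QuotientAddGroup.out_eq' x, ← QuotientAddGroup.out_eq' y]
    refine (mk_eq_iff k ρ _ _).2 ⟨T - T', fun s => ?_⟩
    rw [map_sub, sub_sub_sub_comm, ← hT, ← hT', h1]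
    abel
  · intro h
    obtain ⟨S, hS, h1⟩ := shaFinite_of k ρ (fun _ => True)
      (Finite.of_injective (fun x => x.1) Subtype.val_injective)
    exact ⟨S, hS, fun ψ hψ => h1 ψ ((isSha_iff k ρ ψ).2 hψ) trivial⟩

end

variable (W : Fin n → WeierstrassCurve K)

private noncomputable def tEquiv (W : WeierstrassCurve K) : TTC.T2 Ω W ≃ₗ[ℤ_[2]] T2 Ω W :=
  LinearEquiv.refl ℤ_[2] (T2 Ω W)

private noncomputable def tensEquiv :
    (⨂[ℤ_[2]] i, TTC.T2 Ω (W i)) ≃ₗ[ℤ_[2]] (⨂[ℤ_[2]] i, T2 Ω (W i)) :=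
  PiTensorProduct.congr fun i => tEquiv Ω (W i)

private noncomputable def tm (x : ⨂[ℤ_[2]] i, T2 Ω (W i))
    (y : ℚ_[2] ⧸ (1 : Submodule ℤ_[2] ℚ_[2])) : ModN Ω W :=
  x ⊗ₜ[ℤ_[2]] y

private noncomputable def modEquiv : TTC.ModN Ω W ≃ₗ[ℤ_[2]] ModN Ω W :=
  TensorProduct.congr (tensEquiv Ω W) (LinearEquiv.refl ℤ_[2] _)

private theorem tensEquiv_act (s : Ω ≃ₐ[K] Ω) (x : ⨂[ℤ_[2]] i, TTC.T2 Ω (W i)) :
    PiTensorProduct.map (fun i => actT2 Ω (W i) s) (tensEquiv Ω W x) =
      tensEquiv Ω W (PiTensorProduct.map (fun i => TTC.actT2 Ω (W i) s) x) := by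
  induction x using PiTensorProduct.induction_on with
  | smul_tprod r x =>
    rw [map_smul, map_smul, map_smul, map_smul]
    congr 1
  | add x y hx hy => simp only [map_add, hx, hy]

private theorem modEquiv_tmul (x : ⨂[ℤ_[2]] i, TTC.T2 Ω (W i))
    (y : ℚ_[2] ⧸ (1 : Submodule ℤ_[2] ℚ_[2])) :
    modEquiv Ω W (x ⊗ₜ[ℤ_[2]] y) = tm Ω W (tensEquiv Ω W x) y := rfl

private theorem actMod_tmul (s : Ω ≃ₐ[K] Ω) (x : ⨂[ℤ_[2]] i, T2 Ω (W i))
    (y : ℚ_[2] ⧸ (1 : Submodule ℤ_[2] ℚ_[2])) :
    actMod Ω W s (tm Ω W x y) = tm Ω W (PiTensorProduct.map (fun i => actT2 Ω (W i) s) x) y := rfl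

private theorem actMod_equiv (s : Ω ≃ₐ[K] Ω) (x : TTC.ModN Ω W) :
    actMod Ω W s (modEquiv Ω W x) =
      modEquiv Ω W (TensorProduct.map (PiTensorProduct.map fun i => TTC.actT2 Ω (W i) s)
        LinearMap.id x) := by
  induction x using TensorProduct.induction_on with
  | zero => simp only [map_zero]
  | tmul x y =>
    refine (congrArg (actMod Ω W s) (modEquiv_tmul Ω W x y)).trans ?_
    refine (actMod_tmul Ω W s _ y).trans ?_
    rw [tensEquiv_act, TensorProduct.map_tmul]
    exact (modEquiv_tmul Ω W _ y).symm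
  | add x y hx hy => simp only [map_add, hx, hy]

private theorem modEquiv_act (m : ℕ) (d : K) (s : Ω ≃ₐ[K] Ω) (x : TTC.ModN Ω W) :
    actN Ω W m d s (modEquiv Ω W x) = modEquiv Ω W (TTC.actN Ω W m d s x) := by
  change quadChar Ω d s • ((cycPow Ω m s : ℤ_[2]) • actMod Ω W s (modEquiv Ω W x)) = _
  rw [actMod_equiv, ← map_smul, ← map_zsmul]
  rfl

end

theorem shaN_iff (a b : Fin n → k[X]) (D : k[X]) :
    ShaNFinite a b D ↔ Finite (TTC.ShaN a b D) := by
  have h : (fun i => curve (a i) (b i)) = fun i => Sm.L.crv2 (a i) (b i) :=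
    funext fun i => curve_eq _ _
  have h1 : ∀ W W' : Fin n → WeierstrassCurve (RatFunc k), W = W' → ∀ m d,
      (Finite (SmJ.L.Sha k (actN (SeparableClosure (RatFunc k)) W m d)) ↔
        Finite (SmJ.L.Sha k (TTC.actN (SeparableClosure (RatFunc k)) W' m d))) := by
    rintro W _ rfl m d
    exact (TTC.sha_congr_iff k (modEquiv _ W).toAddEquiv fun s x => modEquiv_act _ W m d s x).symm
  exact (shaFinite_iff k _).trans (h1 _ _ h _ _)

theorem ord_iff (a b D : k[X]) : Ord a b D ↔ Sm.L.Ord a b D := by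
  unfold Ord Sm.L.Ord Sm.L.OrdC
  rw [curve_eq]

private theorem count_eq (a b : Fin n → k[X]) (N : ℕ) (P P' : k[X] → Prop)
    (h : ∀ D, P D ↔ P' D) : count a b N P =
      (Nat.card {D : k[X] // TTC.IsTwist a b N D ∧ P' D} : ℝ) := by
  unfold count
  congr 1
  exact Nat.card_congr (Equiv.subtypeEquivRight fun D => and_congr Iff.rfl (h D))

end

/-- **The theorem.** There is a constant `c > 0` such that for every `ε > 0` and all large `N`:
there are at least `c q ^ N` twists `D` of degree `N`, and for all but a proportion `ε` of them the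
group `Ш` of the tensor product of the Tate modules of every choice of an odd number `m ≥ 3` of the
curves is finite, and the order of vanishing of the `L`-function of each of the curves
`y ^ 2 = x (x - D a_i) (x - D b_i)` is the corank of its Selmer group and at most `1`. -/
theorem result (k : Type) [Field k] [Finite k] (h2 : (2 : k) ≠ 0) (n : ℕ) (a b : Fin n → k[X])
    (h : Family a b) :
    ∃ c : ℝ, 0 < c ∧ ∀ ε : ℝ, 0 < ε → ∃ N₀ : ℕ, ∀ N ≥ N₀,
      c * (Nat.card k : ℝ) ^ N ≤ count a b N (fun _ => True) ∧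
      count a b N (fun D => ¬ ((∀ (m : ℕ) (g : Fin m → Fin n), Function.Injective g → Odd m →
          3 ≤ m → ShaNFinite (fun j => a (g j)) (fun j => b (g j)) D) ∧
        ∀ i, Ord (a i) (b i) D)) ≤ ε * count a b N (fun _ => True) := by
  obtain ⟨c, hc, h1⟩ := TTC.final_all h2 a b
    ⟨h.squarefree, h.deg_b, h.deg_sub, h.even, h.pos⟩
  have hT : ∀ N, count a b N (fun _ => True) =
      (Nat.card {D : k[X] // TTC.IsTwist a b N D} : ℝ) := fun N => by
    rw [count_eq a b N _ (fun _ => True) fun _ => Iff.rfl]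
    simp only [and_true]
  refine ⟨c, hc, fun ε hε => ?_⟩
  obtain ⟨N₀, h2⟩ := h1 ε hε
  refine ⟨N₀, fun N hN => ?_⟩
  obtain ⟨h3, h4⟩ := h2 N hN
  rw [hT]
  refine ⟨h3, ?_⟩
  have h5 : ∀ D : k[X],
      (¬ ((∀ (m : ℕ) (g : Fin m → Fin n), Function.Injective g → Odd m →
          3 ≤ m → ShaNFinite (fun j => a (g j)) (fun j => b (g j)) D) ∧
        ∀ i, Ord (a i) (b i) D)) ↔
      ¬ ((∀ (m : ℕ) (g : Fin m → Fin n), Function.Injective g → Odd m →
          3 ≤ m → Finite (TTC.ShaN (fun j => a (g j)) (fun j => b (g j)) D)) ∧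
        ∀ i, Sm.L.Ord (a i) (b i) D) := by
    intro D
    refine not_congr (and_congr ⟨fun h m g h1 h2 h3 => ?_, fun h m g h1 h2 h3 => ?_⟩
      (forall_congr' fun i => ord_iff _ _ _))
    · exact (shaN_iff (fun j => a (g j)) (fun j => b (g j)) D).1 (h m g h1 h2 h3)
    · exact (shaN_iff (fun j => a (g j)) (fun j => b (g j)) D).2 (h m g h1 h2 h3)
  rw [count_eq a b N _ _ h5]
  exact h4

end Pool.Agent.Results.MP_950c68_ag.AllCodimensions
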