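import Mathlib

/-!
# Tate classes on abelian varieties are generated in codimension two

Let `k` be a finite field with `q` elements.  For an abelian variety `A` over `k` the Frobenius
`F` acts semisimply on `H¹(Ā)` (Weil), its eigenvalues are Weil `q`-numbers, and
`H^{2j}(Ā) = ⋀^{2j} H¹(Ā)`; so `E^j(A)` over finite extensions of `k` is spanned, over an algebraic
closure of `ℚ_l`, by the products `v_1 ⋯ v_{2j}` of eigenvectors whose eigenvalues
`α_1, ..., α_{2j}` satisfy `(α_1 ⋯ α_{2j}) ^ n = q ^ (n j)` for some `n ≥ 1`.  By Honda and Tate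
each finite set `B` of Weil `q`-numbers consists of Frobenius eigenvalues of an abelian variety
over `k`, again called `B`, and `B` is a factor of the Jacobian of a curve `C`.  Call a multiset
`s = {α_1, ..., α_{2j}}` of Weil numbers *algebraic* if for all abelian varieties `A_i` and all
eigenvectors `v_i ∈ H¹(Ā_i)` with eigenvalue `α_i` the class `v_1 ⊗ ⋯ ⊗ v_{2j}` on `A_1 × ⋯ × A_{2j}`
is a combination of classes of algebraic cycles.  Then

* `{α, β}` is algebraic if it is a Tate multiset: this is Tate's theorem of 1966;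
* if `s` and `t` are algebraic, so is `s + t`: exterior products of cycles;
* if `{α, q / α} + s` is algebraic, so is `s`: multiply with the dual class, of codimension
  `dim - 1` (algebraic by Tate's theorem and hard Lefschetz), and push forward;
* `{α, β, q / γ, q / γ}` with `γ ^ 2 = α β` and `α, β, γ ∈ B` is algebraic if the Tate conjecture
  holds for codimension two cycles on the fourth power of `C` (or of `B`).

The theorem says that for every finite set `S` of Weil numbers there is a finite set `B`, consisting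
of Weil numbers having a power in the group generated by `S` and `q`, such that these four rules
produce all Tate multisets with elements in `S`.  Hence for every abelian variety `A` over `k` there
is a curve `C` over `k` such that the codimension two case for `C⁴` implies the Tate conjecture for
all powers of `A`, in all codimensions; and the codimension two case for fourth powers of curves
implies the Tate conjecture for all abelian varieties and all products of curves.
-/

namespace Pool.Agent.Lib.MP_950c68_ag.Old.CodimTwo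

/-- `α` is a Weil `q`-number: an algebraic integer with `|φ(α)| = √q` for every embedding `φ` of
the field of algebraic numbers into `ℂ`. -/
def IsWeil (q : ℕ) (α : AlgebraicClosure ℚ) : Prop :=
  IsIntegral ℤ α ∧ ∀ φ : AlgebraicClosure ℚ →+* ℂ, ‖φ α‖ ^ 2 = q

/-- A multiset of an even number `2 j` of Weil `q`-numbers whose product equals `q ^ j` up to a
root of unity. -/
def IsTate (q : ℕ) (s : Multiset (AlgebraicClosure ℚ)) : Prop :=
  (∀ α ∈ s, IsWeil q α) ∧
    ∃ j n : ℕ, Multiset.card s = 2 * j ∧ 0 < n ∧ s.prod ^ n = (q : AlgebraicClosure ℚ) ^ (n * j)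

/-- Some power of `β` lies in the multiplicative group generated by `q` and the elements of `S`. -/
def Dependent (q : ℕ) (S : Finset (AlgebraicClosure ℚ)) (β : AlgebraicClosure ℚ) : Prop :=
  ∃ (n : ℕ) (m : ℤ) (d : AlgebraicClosure ℚ → ℤ), n ≠ 0 ∧
    β ^ n = (q : AlgebraicClosure ℚ) ^ m * ∏ α ∈ S, α ^ d α

/-- The multisets obtained from Tate multisets with two elements (codimension one) and from the
multisets `{α, β, q / γ, q / γ}` with `γ ^ 2 = α β` (codimension two) by forming unions and by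
removing pairs `{α, q / α}`, with `α`, `β` and `γ` in a set `B`. -/
inductive Gen (q : ℕ) (B : Set (AlgebraicClosure ℚ)) : Multiset (AlgebraicClosure ℚ) → Prop
  /-- codimension one -/
  | one (α β : AlgebraicClosure ℚ) : α ∈ B → β ∈ B → IsTate q {α, β} → Gen q B {α, β}
  /-- codimension two -/
  | two (α β γ : AlgebraicClosure ℚ) : α ∈ B → β ∈ B → γ ∈ B → γ ^ 2 = α * β →
      Gen q B {α, β, q / γ, q / γ}
  /-- exterior products -/
  | add (s t : Multiset (AlgebraicClosure ℚ)) : Gen q B s → Gen q B t → Gen q B (s + t)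
  /-- contraction -/
  | cancel (α : AlgebraicClosure ℚ) (s : Multiset (AlgebraicClosure ℚ)) : α ∈ B → s ≠ 0 →
      Gen q B ({α, q / α} + s) → Gen q B s

variable {q : ℕ}

theorem exists_embedding : Nonempty (AlgebraicClosure ℚ →+* ℂ) := by
  let _ : Algebra ℚ (AlgebraicClosure ℚ) := AlgebraicClosure.instAlgebra ℚ
  have h : Algebra.IsAlgebraic ℚ (AlgebraicClosure ℚ) := AlgebraicClosure.isAlgebraic ℚ
  exact ⟨(IsAlgClosed.lift (R := ℚ) (S := AlgebraicClosure ℚ) (M := ℂ)).toRingHom⟩

theorem isIntegral_map_iff {A B : Type*} [Field A] [Field B] [Algebra ℤ A] [Algebra ℤ B]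
    (φ : A →+* B) (x : A) : IsIntegral ℤ (φ x) ↔ IsIntegral ℤ x := by
  have h1 : algebraMap ℤ B = φ.comp (algebraMap ℤ A) := Subsingleton.elim _ _
  constructor
  · rintro ⟨p, hp, hx⟩
    refine ⟨p, hp, φ.injective ?_⟩
    rw [Polynomial.hom_eval₂, ← h1, hx, map_zero]
  · rintro ⟨p, hp, hx⟩
    refine ⟨p, hp, ?_⟩
    rw [h1, ← Polynomial.hom_eval₂, hx, map_zero]

theorem exists_le_card (s : Multiset (AlgebraicClosure ℚ)) (n : ℕ) (h : n ≤ Multiset.card s) :
    ∃ t ≤ s, Multiset.card t = n := by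
  have h1 : 0 < Multiset.card (Multiset.powersetCard n s) := by
    rw [Multiset.card_powersetCard]
    exact Nat.choose_pos h
  obtain ⟨t, ht⟩ := Multiset.card_pos_iff_exists_mem.mp h1
  exact ⟨t, Multiset.mem_powersetCard.mp ht⟩

theorem IsWeil.ne_zero (hq : q ≠ 0) {α : AlgebraicClosure ℚ} (h : IsWeil q α) : α ≠ 0 := by
  rintro rfl
  obtain ⟨φ⟩ := exists_embedding
  have h1 := h.2 φ
  rw [map_zero, norm_zero, zero_pow two_ne_zero] at h1
  exact hq (by exact_mod_cast h1.symm)

theorem IsWeil.div (hq : q ≠ 0) {α : AlgebraicClosure ℚ} (h : IsWeil q α) :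
    IsWeil q (q / α) := by
  have hα := h.ne_zero hq
  have hφ : ∀ φ : AlgebraicClosure ℚ →+* ℂ, φ (q / α) = (starRingEnd ℂ) (φ α) := by
    intro φ
    have h0 : φ α ≠ 0 := (_root_.map_ne_zero φ).mpr hα
    rw [map_div₀, map_natCast, div_eq_iff h0, mul_comm, Complex.mul_conj, Complex.normSq_eq_norm_sq,
      h.2 φ]
    simp
  refine ⟨?_, fun φ => ?_⟩
  · obtain ⟨φ⟩ := exists_embedding
    rw [← isIntegral_map_iff φ, hφ, isIntegral_map_iff (starRingEnd ℂ), isIntegral_map_iff φ]
    exact h.1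
  · rw [hφ, RCLike.norm_conj, h.2]

theorem IsWeil.sqrt (hq : q ≠ 0) {α β γ : AlgebraicClosure ℚ} (hα : IsWeil q α)
    (hβ : IsWeil q β) (h : γ ^ 2 = α * β) : IsWeil q γ := by
  refine ⟨?_, fun φ => ?_⟩
  · apply IsIntegral.of_pow two_pos
    rw [h]
    exact hα.1.mul hβ.1
  · have h1 : (‖φ γ‖ ^ 2) ^ 2 = (q : ℝ) ^ 2 := by
      calc (‖φ γ‖ ^ 2) ^ 2 = ‖φ (γ ^ 2)‖ ^ 2 := by rw [map_pow, norm_pow]
        _ = ‖φ α‖ ^ 2 * ‖φ β‖ ^ 2 := by rw [h, map_mul, norm_mul, mul_pow]
        _ = (q : ℝ) ^ 2 := by rw [hα.2, hβ.2, sq]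
    exact (pow_left_inj₀ (by positivity) (by positivity) two_ne_zero).mp h1

theorem isWeil_sqrt_q {ρ : AlgebraicClosure ℚ} (hρ : ρ ^ 2 = (q : AlgebraicClosure ℚ)) :
    IsWeil q ρ := by
  refine ⟨?_, fun φ => ?_⟩
  · apply IsIntegral.of_pow two_pos
    rw [hρ]
    obtain ⟨φ⟩ := exists_embedding
    rw [← isIntegral_map_iff φ, map_natCast]
    exact isIntegral_algebraMap (R := ℤ) (A := ℂ) (x := (q : ℤ))
  · rw [← norm_pow, ← map_pow, hρ, map_natCast, Complex.norm_natCast]

theorem isTate_pair (hq : q ≠ 0) {α : AlgebraicClosure ℚ} (h : IsWeil q α) :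
    IsTate q {α, (q : AlgebraicClosure ℚ) / α} := by
  refine ⟨?_, 1, 1, rfl, one_pos, ?_⟩
  · intro β hβ
    simp only [Multiset.insert_eq_cons, Multiset.mem_cons, Multiset.mem_singleton] at hβ
    rcases hβ with rfl | rfl
    · exact h
    · exact h.div hq
  · have h0 := h.ne_zero hq
    simp only [Multiset.insert_eq_cons, Multiset.prod_cons, Multiset.prod_singleton]
    rw [mul_div_cancel₀ _ h0]

/-! ### Dependent Weil numbers -/

variable {S : Finset (AlgebraicClosure ℚ)}

theorem dependent_of_mem {α : AlgebraicClosure ℚ} (h : α ∈ S) : Dependent q S α := by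
  classical
  refine ⟨1, 0, fun β => if β = α then 1 else 0, one_ne_zero, ?_⟩
  rw [pow_one, zpow_zero, one_mul, Finset.prod_eq_single α]
  · simp only [if_true, zpow_one]
  · intro β _ hβ
    simp only [if_neg hβ, zpow_zero]
  · intro h1
    exact absurd h h1

theorem dependent_sqrt_q {ρ : AlgebraicClosure ℚ} (hρ : ρ ^ 2 = (q : AlgebraicClosure ℚ)) :
    Dependent q S ρ :=
  ⟨2, 1, fun _ => 0, two_ne_zero, by rw [hρ, zpow_one]; simp⟩

theorem Dependent.mul (hq : q ≠ 0) (hS : ∀ α ∈ S, α ≠ 0) {β γ δ : AlgebraicClosure ℚ}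
    (hβ : Dependent q S β) (hγ : Dependent q S γ) {n : ℕ} (hn : n ≠ 0)
    (h : δ ^ n = β * γ) : Dependent q S δ := by
  have hq' : (q : AlgebraicClosure ℚ) ≠ 0 := by exact_mod_cast hq
  obtain ⟨n₁, m₁, d₁, hn₁, h₁⟩ := hβ
  obtain ⟨n₂, m₂, d₂, hn₂, h₂⟩ := hγ
  refine ⟨n * (n₁ * n₂), m₁ * n₂ + m₂ * n₁, fun α => d₁ α * n₂ + d₂ α * n₁,
    mul_ne_zero hn (mul_ne_zero hn₁ hn₂), ?_⟩
  have e1 : δ ^ (n * (n₁ * n₂)) = (β ^ n₁) ^ n₂ * (γ ^ n₂) ^ n₁ := by
    rw [pow_mul, h, mul_pow, pow_mul, mul_comm n₁ n₂, pow_mul]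
  have e2 : ∏ α ∈ S, α ^ (d₁ α * n₂ + d₂ α * n₁) =
      (∏ α ∈ S, α ^ d₁ α) ^ n₂ * (∏ α ∈ S, α ^ d₂ α) ^ n₁ := by
    rw [← Finset.prod_pow, ← Finset.prod_pow, ← Finset.prod_mul_distrib]
    refine Finset.prod_congr rfl fun α hα => ?_
    rw [zpow_add₀ (hS α hα), zpow_mul, zpow_mul, zpow_natCast, zpow_natCast]
  rw [e1, h₁, h₂, e2, mul_pow, mul_pow, zpow_add₀ hq', zpow_mul, zpow_mul, zpow_natCast,
    zpow_natCast]
  ring

theorem Dependent.div (hq : q ≠ 0) {β : AlgebraicClosure ℚ}
    (hβ : Dependent q S β) : Dependent q S (q / β) := by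
  have hq' : (q : AlgebraicClosure ℚ) ≠ 0 := by exact_mod_cast hq
  obtain ⟨n, m, d, hn, h⟩ := hβ
  refine ⟨n, n - m, fun α => - d α, hn, ?_⟩
  rw [div_pow, h, zpow_sub₀ hq', zpow_natCast, div_mul_eq_div_div, div_eq_mul_inv (_ / _),
    ← Finset.prod_inv_distrib]
  congr 1
  refine Finset.prod_congr rfl fun α _ => ?_
  rw [zpow_neg]

/-! ### Formal properties of the generation relation -/

variable {B : Set (AlgebraicClosure ℚ)}

theorem Gen.mono {C : Set (AlgebraicClosure ℚ)} (hBC : B ⊆ C)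
    {s : Multiset (AlgebraicClosure ℚ)} (h : Gen q B s) : Gen q C s := by
  induction h with
  | one α β hα hβ h => exact Gen.one _ _ (hBC hα) (hBC hβ) h
  | two α β γ hα hβ hγ h => exact Gen.two _ _ _ (hBC hα) (hBC hβ) (hBC hγ) h
  | add s t _ _ hs ht => exact Gen.add _ _ hs ht
  | cancel α s hα hs _ ih => exact Gen.cancel _ _ (hBC hα) hs ih

theorem Gen.exists_finset {s : Multiset (AlgebraicClosure ℚ)} (h : Gen q B s) :
    ∃ F : Finset (AlgebraicClosure ℚ), (∀ β ∈ F, β ∈ B) ∧ Gen q (F : Set (AlgebraicClosure ℚ)) s := by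
  classical
  induction h with
  | one α β hα hβ h =>
    refine ⟨{α, β}, ?_, Gen.one _ _ (by simp) (by simp) h⟩
    intro x hx
    rw [Finset.mem_insert, Finset.mem_singleton] at hx
    rcases hx with rfl | rfl
    · exact hα
    · exact hβ
  | two α β γ hα hβ hγ h =>
    refine ⟨{α, β, γ}, ?_, Gen.two _ _ _ (by simp) (by simp) (by simp) h⟩
    intro x hx
    rw [Finset.mem_insert, Finset.mem_insert, Finset.mem_singleton] at hx
    rcases hx with rfl | rfl | rfl
    · exact hα
    · exact hβ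
    · exact hγ
  | add s t _ _ hs ht =>
    obtain ⟨F, hF, hs⟩ := hs
    obtain ⟨F', hF', ht⟩ := ht
    refine ⟨F ∪ F', ?_, Gen.add _ _ (hs.mono ?_) (ht.mono ?_)⟩
    · intro x hx
      rcases Finset.mem_union.mp hx with hx | hx
      · exact hF x hx
      · exact hF' x hx
    · rw [Finset.coe_union]; exact Set.subset_union_left
    · rw [Finset.coe_union]; exact Set.subset_union_right
  | cancel α s hα hs _ ih =>
    obtain ⟨F, hF, h⟩ := ih
    refine ⟨insert α F, ?_, Gen.cancel α _ (by simp) hs (h.mono ?_)⟩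
    · intro x hx
      rcases Finset.mem_insert.mp hx with rfl | hx
      · exact hα
      · exact hF x hx
    · rw [Finset.coe_insert]; exact Set.subset_insert _ _

/-- Empty or generated. -/
def G0 (q : ℕ) (B : Set (AlgebraicClosure ℚ)) (s : Multiset (AlgebraicClosure ℚ)) : Prop :=
  s = 0 ∨ Gen q B s

theorem G0.add {s t : Multiset (AlgebraicClosure ℚ)} (hs : G0 q B s) (ht : G0 q B t) :
    G0 q B (s + t) := by
  rcases hs with rfl | hs
  · rwa [zero_add]
  · rcases ht with rfl | ht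
    · rw [add_zero]; exact Or.inr hs
    · exact Or.inr (hs.add _ _ ht)

theorem G0.nsmul {s : Multiset (AlgebraicClosure ℚ)} (hs : G0 q B s) (n : ℕ) :
    G0 q B (n • s) := by
  induction n with
  | zero => rw [zero_nsmul]; exact Or.inl rfl
  | succ n ih => rw [succ_nsmul]; exact ih.add hs

theorem G0.cancel {α : AlgebraicClosure ℚ} {s : Multiset (AlgebraicClosure ℚ)} (hα : α ∈ B)
    (h : G0 q B ({α, (q : AlgebraicClosure ℚ) / α} + s)) : G0 q B s := by
  by_cases hs : s = 0
  · exact Or.inl hs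
  · rcases h with h | h
    · exfalso
      have := congrArg Multiset.card h
      simp at this
    · exact Or.inr (Gen.cancel α s hα hs h)

/-- The dual multiset. -/
noncomputable def dual (q : ℕ) (s : Multiset (AlgebraicClosure ℚ)) :
    Multiset (AlgebraicClosure ℚ) :=
  s.map fun α => (q : AlgebraicClosure ℚ) / α

theorem prod_dual (s : Multiset (AlgebraicClosure ℚ)) :
    (dual q s).prod * s.prod = (q : AlgebraicClosure ℚ) ^ (Multiset.card s) ∨ 0 ∈ s := by
  induction s using Multiset.induction_on with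
  | empty => left; simp [dual]
  | cons α s ih =>
    by_cases hα : α = 0
    · right; rw [hα]; exact Multiset.mem_cons_self _ _
    · rcases ih with ih | ih
      · left
        simp only [dual, Multiset.map_cons, Multiset.prod_cons, Multiset.card_cons] at ih ⊢
        rw [pow_succ, ← ih]
        field_simp
      · right; exact Multiset.mem_cons_of_mem ih

theorem IsTate.dual (hq : q ≠ 0) {s : Multiset (AlgebraicClosure ℚ)} (h : IsTate q s) :
    IsTate q (dual q s) := by
  obtain ⟨hW, j, n, hc, hn, hp⟩ := h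
  refine ⟨?_, j, n, ?_, hn, ?_⟩
  · intro β hβ
    simp only [CodimTwo.dual, Multiset.mem_map] at hβ
    obtain ⟨α, hα, rfl⟩ := hβ
    exact (hW α hα).div hq
  · rw [CodimTwo.dual, Multiset.card_map, hc]
  · have hq' : (q : AlgebraicClosure ℚ) ≠ 0 := by exact_mod_cast hq
    rcases prod_dual (q := q) s with h1 | h1
    · have h2 : (CodimTwo.dual q s).prod ^ n * s.prod ^ n =
          (q : AlgebraicClosure ℚ) ^ (n * j) * (q : AlgebraicClosure ℚ) ^ (n * j) := by
        rw [← mul_pow, h1, hc, ← pow_mul, ← pow_add]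
        congr 1
        ring
      rw [hp] at h2
      exact mul_right_cancel₀ (pow_ne_zero _ hq') h2
    · exact absurd rfl ((hW 0 h1).ne_zero hq)

theorem Gen.dual (hq : q ≠ 0) (hdiv : ∀ α ∈ B, (q : AlgebraicClosure ℚ) / α ∈ B)
    {s : Multiset (AlgebraicClosure ℚ)} (h : Gen q B s) : Gen q B (dual q s) := by
  induction h with
  | one α β hα hβ h =>
    have h1 := h.dual hq
    simp only [CodimTwo.dual, Multiset.insert_eq_cons, Multiset.map_cons,
      Multiset.map_singleton] at h1 ⊢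
    exact Gen.one _ _ (hdiv _ hα) (hdiv _ hβ) h1
  | two α β γ hα hβ hγ h =>
    have h1 := Gen.two (q := q) (q / α) (q / β) (q / γ) (hdiv _ hα) (hdiv _ hβ) (hdiv _ hγ) (by
      rw [div_pow, h, div_mul_div_comm, sq])
    simpa only [CodimTwo.dual, Multiset.insert_eq_cons, Multiset.map_cons,
      Multiset.map_singleton] using h1
  | add s t _ _ hs ht =>
    rw [CodimTwo.dual, Multiset.map_add]
    exact Gen.add _ _ hs ht
  | cancel α s hα hs _ ih =>
    apply Gen.cancel (q / α) _ (hdiv _ hα)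
    · intro h
      apply hs
      rwa [CodimTwo.dual, Multiset.map_eq_zero] at h
    · simpa only [CodimTwo.dual, Multiset.map_add, Multiset.insert_eq_cons, Multiset.map_cons,
        Multiset.map_singleton] using ih

theorem G0.dual (hq : q ≠ 0) (hdiv : ∀ α ∈ B, (q : AlgebraicClosure ℚ) / α ∈ B)
    {s : Multiset (AlgebraicClosure ℚ)} (h : G0 q B s) : G0 q B (dual q s) := by
  rcases h with rfl | h
  · left; rfl
  · right; exact h.dual hq hdiv

theorem dual_cons (α : AlgebraicClosure ℚ) (t : Multiset (AlgebraicClosure ℚ)) :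
    dual q (α ::ₘ t) = {(q : AlgebraicClosure ℚ) / α} + dual q t := by
  rw [CodimTwo.dual, Multiset.map_cons, Multiset.singleton_add]
  rfl

theorem G0.cancel_dual {t : Multiset (AlgebraicClosure ℚ)}
    (ht : ∀ α ∈ t, α ∈ B) :
    ∀ s : Multiset (AlgebraicClosure ℚ), G0 q B (s + (t + CodimTwo.dual q t)) → G0 q B s := by
  induction t using Multiset.induction_on with
  | empty => intro s h; simpa [CodimTwo.dual] using h
  | cons α t ih =>
    intro s h
    apply ih (fun β hβ => ht β (Multiset.mem_cons_of_mem hβ)) s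
    apply G0.cancel (ht α (Multiset.mem_cons_self _ _))
    have h1 : s + (α ::ₘ t + CodimTwo.dual q (α ::ₘ t)) =
        {α, (q : AlgebraicClosure ℚ) / α} + (s + (t + CodimTwo.dual q t)) := by
      rw [dual_cons, Multiset.insert_eq_cons, ← Multiset.singleton_add, ← Multiset.singleton_add]
      abel
    rwa [← h1]

theorem G0.of_add (hq : q ≠ 0) (hdiv : ∀ α ∈ B, (q : AlgebraicClosure ℚ) / α ∈ B)
    {s t : Multiset (AlgebraicClosure ℚ)}
    (hW : ∀ α ∈ t, α ∈ B) (hst : G0 q B (s + t)) (ht : G0 q B t) : G0 q B s := by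
  apply G0.cancel_dual hW
  rw [← add_assoc]
  exact hst.add (ht.dual hq hdiv)

/-- The average of `2 ^ k` Weil numbers. -/
theorem average (hq : q ≠ 0) (hWeil : ∀ α ∈ B, IsWeil q α)
    (hdiv : ∀ α ∈ B, (q : AlgebraicClosure ℚ) / α ∈ B)
    (hsqrt : ∀ α ∈ B, ∀ β ∈ B, ∀ γ : AlgebraicClosure ℚ, γ ^ 2 = α * β → γ ∈ B) (k : ℕ) :
    ∀ s : Multiset (AlgebraicClosure ℚ), Multiset.card s = 2 ^ k → (∀ α ∈ s, α ∈ B) →
    ∃ μ : AlgebraicClosure ℚ, μ ∈ B ∧ μ ^ (2 ^ k) = s.prod ∧
      G0 q B (s + (2 ^ k) • {(q : AlgebraicClosure ℚ) / μ}) := by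
  induction k with
  | zero =>
    intro s hs hW
    rw [pow_zero, Multiset.card_eq_one] at hs
    obtain ⟨α, rfl⟩ := hs
    have hα := hW α (Multiset.mem_singleton_self α)
    refine ⟨α, hα, by simp, Or.inr ?_⟩
    rw [pow_zero, one_nsmul]
    exact Gen.one _ _ hα (hdiv _ hα) (isTate_pair hq (hWeil _ hα))
  | succ k ih =>
    intro s hs hW
    obtain ⟨s₁, hle, hs₁⟩ := exists_le_card s (2 ^ k) (by
      rw [hs, pow_succ]; omega)
    obtain ⟨s₂, rfl⟩ := Multiset.le_iff_exists_add.mp hle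
    have hs₂ : Multiset.card s₂ = 2 ^ k := by
      rw [Multiset.card_add, hs₁, pow_succ] at hs
      omega
    obtain ⟨μ₁, hμ₁, hp₁, hG₁⟩ := ih s₁ hs₁ fun α hα => hW α (Multiset.mem_add.mpr (Or.inl hα))
    obtain ⟨μ₂, hμ₂, hp₂, hG₂⟩ := ih s₂ hs₂ fun α hα => hW α (Multiset.mem_add.mpr (Or.inr hα))
    obtain ⟨μ, hμ⟩ := IsAlgClosed.exists_pow_nat_eq (μ₁ * μ₂) two_pos
    have hμB := hsqrt _ hμ₁ _ hμ₂ μ hμ
    refine ⟨μ, hμB, ?_, ?_⟩
    · rw [pow_succ', pow_mul, hμ, mul_pow, hp₁, hp₂, Multiset.prod_add]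
    · have h1 : G0 q B ((2 ^ k) • ({μ₁, μ₂, (q : AlgebraicClosure ℚ) / μ,
          (q : AlgebraicClosure ℚ) / μ} : Multiset (AlgebraicClosure ℚ))) :=
        G0.nsmul (Or.inr (Gen.two _ _ _ hμ₁ hμ₂ hμB hμ)) _
      have h2 : G0 q B ((2 ^ k) • ({μ₁, (q : AlgebraicClosure ℚ) / μ₁} +
          {μ₂, (q : AlgebraicClosure ℚ) / μ₂} : Multiset (AlgebraicClosure ℚ))) :=
        G0.nsmul (G0.add
          (Or.inr (Gen.one _ _ hμ₁ (hdiv _ hμ₁) (isTate_pair hq (hWeil _ hμ₁))))
          (Or.inr (Gen.one _ _ hμ₂ (hdiv _ hμ₂) (isTate_pair hq (hWeil _ hμ₂))))) _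
      refine G0.of_add hq hdiv ?_ ?_ h2
      · intro α hα
        have hα' := Multiset.mem_of_mem_nsmul hα
        simp only [Multiset.insert_eq_cons, Multiset.mem_add, Multiset.mem_cons,
          Multiset.mem_singleton] at hα'
        rcases hα' with (rfl | rfl) | (rfl | rfl)
        · exact hμ₁
        · exact hdiv _ hμ₁
        · exact hμ₂
        · exact hdiv _ hμ₂
      · have h3 := (hG₁.add hG₂).add h1
        have h4 : s₁ + s₂ + (2 ^ (k + 1)) • ({(q : AlgebraicClosure ℚ) / μ} :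
            Multiset (AlgebraicClosure ℚ)) +
            (2 ^ k) • ({μ₁, (q : AlgebraicClosure ℚ) / μ₁} +
              {μ₂, (q : AlgebraicClosure ℚ) / μ₂} : Multiset (AlgebraicClosure ℚ)) =
            s₁ + (2 ^ k) • ({(q : AlgebraicClosure ℚ) / μ₁} : Multiset (AlgebraicClosure ℚ)) +
              (s₂ + (2 ^ k) • ({(q : AlgebraicClosure ℚ) / μ₂} : Multiset (AlgebraicClosure ℚ))) +
            (2 ^ k) • ({μ₁, μ₂, (q : AlgebraicClosure ℚ) / μ,
              (q : AlgebraicClosure ℚ) / μ} : Multiset (AlgebraicClosure ℚ)) := by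
          simp only [Multiset.insert_eq_cons, ← Multiset.singleton_add, pow_succ, mul_nsmul,
            two_nsmul, nsmul_add]
          abel
        rw [h4]
        exact h3

/-- Every nonempty Tate multiset with elements in a set closed under `α ↦ q / α` and square roots
of products is generated in codimension at most two. -/
theorem gen_of_closed (hq : q ≠ 0) (hWeil : ∀ α ∈ B, IsWeil q α)
    (hdiv : ∀ α ∈ B, (q : AlgebraicClosure ℚ) / α ∈ B)
    (hsqrt : ∀ α ∈ B, ∀ β ∈ B, ∀ γ : AlgebraicClosure ℚ, γ ^ 2 = α * β → γ ∈ B)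
    (hroot : ∀ ρ : AlgebraicClosure ℚ, ρ ^ 2 = (q : AlgebraicClosure ℚ) → ρ ∈ B)
    (s : Multiset (AlgebraicClosure ℚ)) (hs : s ≠ 0) (hsB : ∀ α ∈ s, α ∈ B)
    (hT : IsTate q s) : Gen q B s := by
  obtain ⟨hW, j, n, hc, hn, hp⟩ := hT
  have hq' : (q : AlgebraicClosure ℚ) ≠ 0 := by exact_mod_cast hq
  -- a square root of `q`
  obtain ⟨ρ, hρ⟩ := IsAlgClosed.exists_pow_nat_eq (q : AlgebraicClosure ℚ) two_pos
  have hρB : ρ ∈ B := hroot ρ hρ
  have hρW : IsWeil q ρ := hWeil ρ hρB
  -- padding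
  have hj : j ≤ 2 ^ j := Nat.lt_two_pow_self.le
  let m := 2 ^ j - j
  let t : Multiset (AlgebraicClosure ℚ) := m • {ρ, (q : AlgebraicClosure ℚ) / ρ}
  have htB : ∀ α ∈ t, α ∈ B := by
    intro α hα
    have hα' := Multiset.mem_of_mem_nsmul hα
    simp only [Multiset.insert_eq_cons, Multiset.mem_cons, Multiset.mem_singleton] at hα'
    rcases hα' with rfl | rfl
    · exact hρB
    · exact hdiv _ hρB
  have htG : G0 q B t := G0.nsmul (Or.inr (Gen.one _ _ hρB (hdiv _ hρB) (isTate_pair hq hρW))) _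
  have hcard : Multiset.card (s + t) = 2 ^ (j + 1) := by
    rw [Multiset.card_add, hc, Multiset.card_nsmul]
    simp only [Multiset.insert_eq_cons, Multiset.card_cons, Multiset.card_singleton, pow_succ, m]
    omega
  obtain ⟨μ, hμB, hμp, hμG⟩ := average hq hWeil hdiv hsqrt (j + 1) (s + t) hcard (by
    intro α hα
    rcases Multiset.mem_add.mp hα with h | h
    · exact hsB α h
    · exact htB α h)
  have hμW := hWeil μ hμB
  have hprod : t.prod = (q : AlgebraicClosure ℚ) ^ m := by
    simp only [t, Multiset.prod_nsmul, Multiset.insert_eq_cons, Multiset.prod_cons,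
      Multiset.prod_singleton]
    rw [mul_div_cancel₀ _ (hρW.ne_zero hq)]
  have hpow : μ ^ (2 ^ (j + 1) * n) = (q : AlgebraicClosure ℚ) ^ (2 ^ j * n) := by
    rw [pow_mul, hμp, Multiset.prod_add, hprod, mul_pow, hp, ← pow_mul, ← pow_add]
    congr 1
    have : j + m = 2 ^ j := by simp only [m]; omega
    rw [← this]
    ring
  have hG2 : G0 q B {(q : AlgebraicClosure ℚ) / μ, (q : AlgebraicClosure ℚ) / μ} := by
    right
    apply Gen.one _ _ (hdiv _ hμB) (hdiv _ hμB)
    refine ⟨?_, 1, 2 ^ j * n, rfl, by positivity, ?_⟩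
    · intro α hα
      simp only [Multiset.insert_eq_cons, Multiset.mem_cons, Multiset.mem_singleton, or_self] at hα
      rw [hα]
      exact hμW.div hq
    · simp only [Multiset.insert_eq_cons, Multiset.prod_cons, Multiset.prod_singleton, mul_one]
      rw [← sq, div_pow, div_pow, ← pow_mul μ, ← mul_assoc, ← pow_succ', hpow, ← pow_mul, two_mul,
        pow_add, mul_div_assoc, div_self (pow_ne_zero _ hq'), mul_one]
  have hfin : G0 q B (s + t) := by
    refine G0.of_add hq hdiv ?_ hμG ?_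
    · intro α hα
      have hα' := Multiset.mem_of_mem_nsmul hα
      rw [Multiset.mem_singleton] at hα'
      rw [hα']
      exact hdiv _ hμB
    · have h1 := hG2.nsmul (2 ^ j)
      have h2 : (2 ^ j) • ({(q : AlgebraicClosure ℚ) / μ, (q : AlgebraicClosure ℚ) / μ} :
          Multiset (AlgebraicClosure ℚ)) =
          (2 ^ (j + 1)) • ({(q : AlgebraicClosure ℚ) / μ} : Multiset (AlgebraicClosure ℚ)) := by
        simp only [Multiset.insert_eq_cons, ← Multiset.singleton_add, pow_succ, mul_nsmul,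
          two_nsmul, nsmul_add]
      rwa [h2] at h1
  rcases G0.of_add hq hdiv htB hfin htG with h | h
  · exact absurd h hs
  · exact h

/-! ### Finitely many minimal Tate multisets -/

/-- The nonempty Tate multisets with elements in `S`. -/
def TateIn (q : ℕ) (S : Finset (AlgebraicClosure ℚ)) : Set (Multiset (AlgebraicClosure ℚ)) :=
  {s | s ≠ 0 ∧ (∀ α ∈ s, α ∈ S) ∧ IsTate q s}

theorem tateIn_sub (hq : q ≠ 0) {s t : Multiset (AlgebraicClosure ℚ)} (hs : s ∈ TateIn q S)
    (ht : t ∈ TateIn q S) {u : Multiset (AlgebraicClosure ℚ)} (hu : s = t + u) (hu0 : u ≠ 0) :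
    u ∈ TateIn q S := by
  have hq' : (q : AlgebraicClosure ℚ) ≠ 0 := by exact_mod_cast hq
  obtain ⟨_, hsS, hsW, j, n, hc, hn, hp⟩ := hs
  obtain ⟨_, htS, htW, j', n', hc', hn', hp'⟩ := ht
  subst hu
  refine ⟨hu0, fun α hα => hsS α (Multiset.mem_add.mpr (Or.inr hα)),
    fun α hα => hsW α (Multiset.mem_add.mpr (Or.inr hα)), j - j', n * n', ?_, by positivity, ?_⟩
  · rw [Multiset.card_add] at hc
    omega
  · have hjj : j' ≤ j := by
      rw [Multiset.card_add] at hc
      omega
    have h1 : (t + u).prod ^ (n * n') = (q : AlgebraicClosure ℚ) ^ (n * n' * j) := by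
      rw [pow_mul, hp, ← pow_mul]
      congr 1
      ring
    have h2 : t.prod ^ (n * n') = (q : AlgebraicClosure ℚ) ^ (n * n' * j') := by
      rw [mul_comm n n', pow_mul, hp', ← pow_mul]
      congr 1
      ring
    rw [Multiset.prod_add, mul_pow, h2] at h1
    have h3 : (q : AlgebraicClosure ℚ) ^ (n * n' * j) =
        (q : AlgebraicClosure ℚ) ^ (n * n' * j') * (q : AlgebraicClosure ℚ) ^ (n * n' * (j - j')) := by
      rw [← pow_add, ← mul_add, Nat.add_sub_cancel' hjj]
    rw [h3] at h1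
    exact mul_left_cancel₀ (pow_ne_zero _ hq') h1

theorem finite_minimal (S : Finset (AlgebraicClosure ℚ)) :
    {s | Minimal (· ∈ TateIn q S) s}.Finite := by
  classical
  let f : Multiset (AlgebraicClosure ℚ) → (S → ℕ) := fun s α => s.count (α : AlgebraicClosure ℚ)
  have hle : ∀ s t : Multiset (AlgebraicClosure ℚ), (∀ α ∈ s, α ∈ S) → f s ≤ f t → s ≤ t := by
    intro s t hs hst
    rw [Multiset.le_iff_count]
    intro α
    by_cases hα : α ∈ S
    · exact hst ⟨α, hα⟩
    · rw [Multiset.count_eq_zero_of_notMem fun h => hα (hs α h)]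
      exact Nat.zero_le _
  have hanti : IsAntichain (· ≤ ·) (f '' {s | Minimal (· ∈ TateIn q S) s}) := by
    rintro _ ⟨s, hs, rfl⟩ _ ⟨t, ht, rfl⟩ hne hst
    apply hne
    have h1 := hle s t hs.1.2.1 hst
    have h2 := ht.2 hs.1 h1
    rw [le_antisymm h1 h2]
  have hfin : (f '' {s | Minimal (· ∈ TateIn q S) s}).Finite :=
    hanti.finite_of_partiallyWellOrderedOn (Set.isPWO_of_wellQuasiOrderedLE _)
  refine Set.Finite.of_finite_image hfin ?_
  intro s hs t ht hst
  exact le_antisymm (hle s t hs.1.2.1 hst.le) (hle t s ht.1.2.1 hst.ge)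

theorem exists_minimal_le {s : Multiset (AlgebraicClosure ℚ)} (hs : s ∈ TateIn q S) :
    ∃ t ≤ s, Minimal (· ∈ TateIn q S) t := by
  induction h : Multiset.card s using Nat.strong_induction_on generalizing s with
  | _ n ih =>
    by_cases hmin : Minimal (· ∈ TateIn q S) s
    · exact ⟨s, le_rfl, hmin⟩
    · rw [not_minimal_iff_exists_lt hs] at hmin
      obtain ⟨t, hlt, ht⟩ := hmin
      obtain ⟨u, hu, hu'⟩ := ih (Multiset.card t) (by
        rw [← h]; exact Multiset.card_lt_card hlt) ht rfl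
      exact ⟨u, hu.trans hlt.le, hu'⟩

/-- For every finite set `S` of Weil `q`-numbers there is a finite set `B` of Weil `q`-numbers such
that all Tate multisets with elements in `S` are generated by those with two elements and those of
the form `{α, β, q / γ, q / γ}` with `γ ^ 2 = α β` and `α`, `β`, `γ` in `B`. -/
theorem result (q : ℕ) (hq : q ≠ 0) (S : Finset (AlgebraicClosure ℚ))
    (hS : ∀ α ∈ S, IsWeil q α) :
    ∃ B : Finset (AlgebraicClosure ℚ), (∀ β ∈ B, IsWeil q β ∧ Dependent q S β) ∧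
      ∀ s : Multiset (AlgebraicClosure ℚ), s ≠ 0 → (∀ α ∈ s, α ∈ S) → IsTate q s →
        Gen q (B : Set (AlgebraicClosure ℚ)) s := by
  classical
  let U : Set (AlgebraicClosure ℚ) := {β | IsWeil q β ∧ Dependent q S β}
  have hS0 : ∀ α ∈ S, α ≠ 0 := fun α hα => (hS α hα).ne_zero hq
  have hgen : ∀ s ∈ TateIn q S, Gen q U s := by
    rintro s ⟨hs0, hsS, hT⟩
    refine gen_of_closed (B := U) hq (fun α hα => hα.1) (fun α hα => ⟨hα.1.div hq, hα.2.div hq⟩)
      (fun α hα β hβ γ hγ => ⟨hα.1.sqrt hq hβ.1 hγ, hα.2.mul hq hS0 hβ.2 two_ne_zero hγ⟩)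
      (fun ρ hρ => ⟨isWeil_sqrt_q hρ, dependent_sqrt_q hρ⟩) s hs0
      (fun α hα => ⟨hS α (hsS α hα), dependent_of_mem (hsS α hα)⟩) hT
  have hex : ∀ s : Multiset (AlgebraicClosure ℚ), ∃ F : Finset (AlgebraicClosure ℚ),
      (∀ β ∈ F, β ∈ U) ∧ (s ∈ TateIn q S → Gen q (F : Set (AlgebraicClosure ℚ)) s) := by
    intro s
    by_cases hs : s ∈ TateIn q S
    · obtain ⟨F, hF, h⟩ := (hgen s hs).exists_finset
      exact ⟨F, hF, fun _ => h⟩
    · exact ⟨∅, by simp, fun h => absurd h hs⟩
  choose F hFU hF using hex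
  let M := (finite_minimal (q := q) S).toFinset
  refine ⟨M.biUnion F, ?_, ?_⟩
  · intro β hβ
    rw [Finset.mem_biUnion] at hβ
    obtain ⟨s, _, hβ⟩ := hβ
    exact hFU s β hβ
  · have key : ∀ n : ℕ, ∀ s ∈ TateIn q S, Multiset.card s = n →
        Gen q (M.biUnion F : Finset (AlgebraicClosure ℚ)) s := by
      intro n
      induction n using Nat.strong_induction_on with
      | _ n ih =>
        intro s hs hn
        obtain ⟨t, hts, ht⟩ := exists_minimal_le hs
        have htM : t ∈ M := (finite_minimal (q := q) S).mem_toFinset.mpr ht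
        have htG : Gen q (M.biUnion F : Finset (AlgebraicClosure ℚ)) t := by
          refine (hF t ht.1).mono ?_
          intro β hβ
          exact Finset.mem_coe.mpr (Finset.mem_biUnion.mpr ⟨t, htM, hβ⟩)
        obtain ⟨u, rfl⟩ := Multiset.le_iff_exists_add.mp hts
        by_cases hu : u = 0
        · rw [hu, add_zero]
          exact htG
        · refine Gen.add _ _ htG (ih (Multiset.card u) ?_ u (tateIn_sub hq hs ht.1 rfl hu) rfl)
          have h1 : 0 < Multiset.card t := Multiset.card_pos.mpr ht.1.1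
          rw [Multiset.card_add] at hn
          omega
    intro s hs0 hsS hT
    exact key _ s ⟨hs0, hsS, hT⟩ rfl

end Pool.Agent.Lib.MP_950c68_ag.Old.CodimTwo
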