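import Pool.Agent.Lib.SmL.Fnl.Done

/-!
Selmer groups of self-dual pure modules over `100` per cent of the cyclic extensions of odd prime
degree `l` of a global function field.

`K` is a finitely generated extension of transcendence degree `1` of a finite field `k` of odd
characteristic which is algebraically closed in `K`, `l` is an odd prime which divides `#k - 1`, and
`M` is an `l`-divisible discrete `l`-power torsion module of finite corank over the Galois group of
`K` with an alternating pairing with values in the roots of unity, which is unramified at almost all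
places, has finitely many elements over each finite extension of each completion of `K`, and has a
large tamely ramified group `M[l]`. The example: `X` is a smooth projective variety of dimension
`2 j - 1` over `K` whose `l`-adic cohomology is torsion free, `M` is the cohomology group
`H ^ (2 j - 1)` of `X` over `Ω` with coefficients `(ℚ_l / ℤ_l) (j)`.

The cyclic extensions `L` of degree `l` of `K` are ordered by the sum of the degrees of the ramified
places. The theorem: for all `L` outside a set of density `0`, the `l ^ i`-Selmer group of `M` over
`L` is, up to a factor which is bounded for fixed `L`, as large as the one over `K`.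
-/

set_option autoImplicit false

open Pool.Agent.SmL.Fnl

namespace Pool.Agent.Results.MP_950c68_ag.CyclicCovers

/-- For `100` per cent of the cyclic extensions `L` of degree `l` of `K` the Selmer groups of `M` over
`L` and over `K` are the same up to a constant. -/
theorem result (k K Ω M : Type) [Field k] [Finite k] [Field K] [Algebra k K]
    [Algebra.EssFiniteType k K] (hK : Algebra.trdeg k K = 1)
    (hk : ∀ x : K, IsIntegral k x → ∃ c : k, algebraMap k K c = x) (h2 : (2 : k) ≠ 0)
    [Field Ω] [Algebra K Ω] [IsSepClosure K Ω] [Algebra k Ω] [IsScalarTower k K Ω]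
    [AddCommGroup M] (l : ℕ) (hl : l.Prime) (hl2 : l ≠ 2) (hlk : l ∣ Nat.card k - 1)
    (ρ : (Ω ≃ₐ[K] Ω) → M →+ M) (hM : SelfDual k l ρ) :
    (∀ n, (Cyc k Ω l n : Set (IntermediateField K Ω)).Finite) ∧
    (∃ c : ℝ, 0 < c ∧ ∃ n₀ : ℕ, ∀ n ≥ n₀, c * (n : ℝ) ^ (l - 2) * (Nat.card k : ℝ) ^ n ≤
      (Cyc k Ω l n : Set (IntermediateField K Ω)).ncard) ∧
    ∀ ε : ℝ, 0 < ε → ∃ n₀ : ℕ, ∀ n ≥ n₀,
      ({L ∈ (Cyc k Ω l n : Set (IntermediateField K Ω)) | ¬ SelCmp k l ρ L}.ncard : ℝ) ≤
        ε * (Cyc k Ω l n : Set (IntermediateField K Ω)).ncard :=
  fin_M k K Ω M hK hk h2 l hl hl2 hlk ρ hM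

end Pool.Agent.Results.MP_950c68_ag.CyclicCovers
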