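import Mathlib
import Pool.Agent.Lib.MP_950c68_ag.Dim3Proof

/-!
# Tate classes on products of abelian varieties of dimension at most three

The definitions and their meaning are in `Pool/Agent/Lib/MP_950c68_ag/Dim3Defs.lean`.
-/

namespace Pool.Agent.Results.MP_950c68_ag.DimThree

open Pool.Agent.Lib.MP_950c68_ag.Dim3

/-- All nonempty Tate multisets of Weil numbers of the given types are generated by divisor classes
and Weil classes on abelian fourfolds `A × E`, if different members of dimension at least two which
are not conjugate generate different Galois closures. -/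
theorem result (p f : ℕ) [Fact p.Prime] (s : Multiset ℂ) (hs : s ≠ 0) (hT : IsTate (p ^ f) s)
    (htype : ∀ x ∈ s, Supersingular (p ^ f) x ∨ Ordinary p (p ^ f) x ∨ Cubic p (p ^ f) x ∨
      Large p (p ^ f) x)
    (hclos : ∀ x ∈ s, ∀ y ∈ s, Large p (p ^ f) x → Large p (p ^ f) y → ¬ IsConjRoot ℚ x y →
      IntermediateField.adjoin ℚ {z : ℂ | IsConjRoot ℚ x z} ≠
        IntermediateField.adjoin ℚ {z : ℂ | IsConjRoot ℚ y z}) :
    Gen p (p ^ f) s := by
  have hq : p ^ f ≠ 0 := pow_ne_zero _ (Fact.out : p.Prime).ne_zero
  have hgood : Good p (p ^ f) s := by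
    refine ⟨hT, ?_, hclos⟩
    intro x hx
    rcases htype x hx with h | h | h | h
    · exact Or.inl h
    · exact Or.inr (Or.inl (Or.inl h))
    · exact Or.inr (Or.inl (Or.inr h))
    · exact Or.inr (Or.inr h)
  exact (Good.g0 rfl hq _ s le_rfl hgood).resolve_left hs

end Pool.Agent.Results.MP_950c68_ag.DimThree
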