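import Mathlib
import Pool.Agent.Lib.MP_950c68_ag.Dom

/-!
# Tate classes on abelian varieties with a dominant Newton slope

For an abelian variety `A` over a finite field with `q = p ^ f` elements, put
`V = H¹(Ā, ℚ_l)` (or `ℚ̄_l`) and let `F` be the geometric Frobenius.  Then
`H^{2j}(Ā) = ⋀^{2j} V`, and the space `E^j` of the Tate conjecture for `A` over the field with
`q ^ n` elements is `tateClasses K (F ^ n) (q ^ n) j`.  The theorem says that `E^j = (E^1)^j`
when one Newton slope dominates the others; as `E^1` consists of divisor classes by Tate's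
theorem, this gives the Tate conjecture for these abelian varieties in all codimensions.
-/

namespace Pool.Agent.Lib.MP_950c68_ag.Old.DominantSlope

open Polynomial IntermediateField

/-- `E^j`: the `Q ^ j`-eigenspace, in the `2 * j`-th exterior power of `V` (a subspace of the
exterior algebra), of the algebra endomorphism of the exterior algebra induced by `F`. -/
def tateClasses (K : Type*) {V : Type*} [Field K] [AddCommGroup V] [Module K V]
    (F : V →ₗ[K] V) (Q : K) (j : ℕ) : Submodule K (ExteriorAlgebra K V) :=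
  (⋀[K]^(2 * j) V) ⊓ Module.End.eigenspace (ExteriorAlgebra.map F).toLinearMap (Q ^ j)

/-- The `p`-adic slope `v(z) / v(q)` of `z` in the algebraic closure of `ℚ_p`. -/
noncomputable def slope (p : ℕ) [Fact p.Prime] (q : ℕ) (z : PadicAlgCl p) : ℝ :=
  Real.log ‖z‖ / Real.log ‖(q : PadicAlgCl p)‖

/-- The sum of `|2 * slope z - 1|` over the `p`-adic roots `z` of `R`. -/
noncomputable def slopeContent (p : ℕ) [Fact p.Prime] (q : ℕ) (R : ℚ[X]) : ℝ :=
  ∑ z ∈ (R.rootSet_finite (PadicAlgCl p)).toFinset, |2 * slope p q z - 1|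

/-- Every proper subfield of `ℚ(z)`, for `z` a complex root of `R`, is contained in
`ℚ(z + q / z)`. -/
def ProperSubfieldsReal (q : ℕ) (R : ℚ[X]) : Prop :=
  ∀ z : ℂ, aeval z R = 0 → ∀ F : IntermediateField ℚ ℂ, F < ℚ⟮z⟯ → F ≤ ℚ⟮z + (q : ℂ) / z⟯

theorem tate_mul {K V : Type*} [Field K] [AddCommGroup V] [Module K V] (F : V →ₗ[K] V) (Q : K)
    (i j : ℕ) : tateClasses K F Q i * tateClasses K F Q j ≤ tateClasses K F Q (i + j) := by
  rw [Submodule.mul_le]
  intro x hx y hy
  rw [tateClasses, Submodule.mem_inf, Module.End.mem_eigenspace_iff] at hx hy ⊢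
  refine ⟨?_, ?_⟩
  · rw [ExteriorAlgebra.exteriorPower, mul_add, pow_add]
    exact Submodule.mul_mem_mul hx.1 hy.1
  · have h1 : ExteriorAlgebra.map F x = Q ^ i • x := hx.2
    have h2 : ExteriorAlgebra.map F y = Q ^ j • y := hy.2
    change ExteriorAlgebra.map F (x * y) = _
    rw [map_mul, h1, h2, smul_mul_smul_comm, pow_add]

theorem pow_tate_le {K V : Type*} [Field K] [AddCommGroup V] [Module K V] (F : V →ₗ[K] V) (Q : K)
    (j : ℕ) : (tateClasses K F Q 1) ^ j ≤ tateClasses K F Q j := by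
  induction j with
  | zero =>
    rw [pow_zero, Submodule.one_le, tateClasses, Submodule.mem_inf,
      Module.End.mem_eigenspace_iff]
    refine ⟨?_, ?_⟩
    · rw [ExteriorAlgebra.exteriorPower, mul_zero, pow_zero]
      exact Submodule.one_le.mp le_rfl
    · change ExteriorAlgebra.map F 1 = _
      simp
  | succ j ih =>
    rw [pow_succ]
    exact (mul_le_mul' ih le_rfl).trans (tate_mul F Q j 1)

theorem result (p f : ℕ) [Fact p.Prime] (hf : f ≠ 0)
    (R : ℚ[X]) (hR : Irreducible R) (hdeg : 1 < R.natDegree)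
    (hsym : ∀ z : ℂ, aeval z R = 0 → aeval (((p ^ f : ℕ) : ℂ) / z) R = 0)
    (z₁ : PadicAlgCl p) (hz₁ : aeval z₁ R = 0) (hne : slope p (p ^ f) z₁ ≠ 1 / 2)
    (hdom : slopeContent p (p ^ f) R ≤ 4 * |2 * slope p (p ^ f) z₁ - 1|)
    (hsub : slopeContent p (p ^ f) R < 4 * |2 * slope p (p ^ f) z₁ - 1| ∨
      ProperSubfieldsReal (p ^ f) R)
    (K V : Type*) [Field K] [CharZero K] [AddCommGroup V] [Module K V] (F : Module.End K V)
    (hF : aeval F ((R * (X ^ 2 - C ((p ^ f : ℕ) : ℚ))).map (algebraMap ℚ K)) = 0)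
    (n : ℕ) (hn : n ≠ 0) (j : ℕ) :
    tateClasses K (F ^ n) (((p ^ f : ℕ) : K) ^ n) j =
      (tateClasses K (F ^ n) (((p ^ f : ℕ) : K) ^ n) 1) ^ j := by
  apply le_antisymm _ (pow_tate_le _ _ _)
  have hp : p.Prime := Fact.out
  have hdeg1 : R.natDegree ≠ 1 := by omega
  have hlogq : Real.log ‖((p ^ f : ℕ) : PadicAlgCl p)‖ ≠ 0 := by
    have h1 : ‖((p ^ f : ℕ) : PadicAlgCl p)‖ = ((p : ℝ)⁻¹) ^ f := by
      push_cast
      rw [norm_pow]
      congr 1
      have h2 := PadicAlgCl.valuation_p p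
      have h3 := PadicAlgCl.valuation_coe p (p : PadicAlgCl p)
      rw [← h3, h2]
      simp
    rw [h1, Real.log_pow, Real.log_inv]
    have h4 : 0 < Real.log p := Real.log_pos (by exact_mod_cast hp.one_lt)
    have h5 : (f : ℝ) ≠ 0 := by exact_mod_cast hf
    intro h6
    rcases mul_eq_zero.mp h6 with h | h
    · exact h5 h
    · linarith
  let E := AlgebraicClosure K
  have hq0 : ((p ^ f : ℕ) : E) ≠ 0 := by
    have h1 : ((p ^ f : ℕ) : K) ≠ 0 := by
      have := hp.ne_zero
      positivity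
    have h2 : algebraMap K E ((p ^ f : ℕ) : K) ≠ 0 := (_root_.map_ne_zero _).mpr h1
    rwa [map_natCast] at h2
  have hnorel : Lib.MP_950c68_ag.NoRel R (p ^ f) E := by
    intro c M hc
    refine Lib.MP_950c68_ag.no_relations_dom (A := ℂ) hR hdeg1 ?_
      (fun z hz => Lib.MP_950c68_ag.closed_transfer hR hsym hz)
      (slope p (p ^ f)) ?_ ?_ (z1 := z₁) ?_ ?_ hdom hsub (IsAlgClosed.splits _) c M hc
    · have := hp.ne_zero
      positivity
    · intro x y hx hy
      unfold slope
      rw [norm_mul, Real.log_mul (norm_ne_zero_iff.mpr hx) (norm_ne_zero_iff.mpr hy), add_div]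
    · unfold slope
      exact div_self hlogq
    · rw [mem_rootSet]
      exact ⟨hR.ne_zero, hz₁⟩
    · intro h
      apply hne
      linarith
  have h0 : ∀ z : E, aeval z R = 0 → z ≠ 0 := fun z hz =>
    Lib.MP_950c68_ag.ne_zero_of_root hR hdeg1 hz
  have hF' : aeval (LinearMap.baseChange E F)
      ((R * (X ^ 2 - C ((p ^ f : ℕ) : ℚ))).map (algebraMap ℚ E)) = 0 := by
    have h1 : (R * (X ^ 2 - C ((p ^ f : ℕ) : ℚ))).map (algebraMap ℚ E) =
        ((R * (X ^ 2 - C ((p ^ f : ℕ) : ℚ))).map (algebraMap ℚ K)).map (algebraMap K E) := by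
      rw [Polynomial.map_map]
      congr 1
    rw [h1, aeval_map_algebraMap]
    have h2 := aeval_algHom_apply (Module.End.baseChangeHom K E V) F
      ((R * (X ^ 2 - C ((p ^ f : ℕ) : ℚ))).map (algebraMap ℚ K))
    rw [hF, map_zero] at h2
    exact h2
  have key := Lib.MP_950c68_ag.tateClasses_le_of_isAlgClosed hR h0 hq0 hnorel
    (LinearMap.baseChange E F) hF' hn j
  apply Lib.MP_950c68_ag.tateClasses_descent K E
  have h3 : LinearMap.baseChange E (F ^ n) = (LinearMap.baseChange E F) ^ n :=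
    map_pow (Module.End.baseChangeHom K E V) F n
  have h4 : algebraMap K E (((p ^ f : ℕ) : K) ^ n) = ((p ^ f : ℕ) : E) ^ n := by
    rw [map_pow, map_natCast]
  rw [h3, h4]
  exact key

end Pool.Agent.Lib.MP_950c68_ag.Old.DominantSlope
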