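import Mathlib
import Pool.Agent.Lib.MP_950c68_ag.F2.Main

/-!
# The Tate conjecture for Fermat varieties and their products

Let `k` be a finite field with `q` elements, `N` a divisor of `q - 1`, and
`X^r : X_0^N + ... + X_{r+1}^N = 0` the Fermat variety of degree `N` and dimension `r` over `k`.
Outside the classes of linear sections, the cohomology of `X^r` is `H^r_prim = ⊕ V(a)`, where
`a = (a_0, ..., a_{r+1})` runs over the nonzero residues modulo `N` with sum `0`, and each `V(a)` is
one-dimensional; the Frobenius acts on `V(a)` as the Jacobi sum `frobEig χ ψ a` (Weil).  For even
`r`, `V(a)` consists of Tate classes over a finite extension of `k` iff `TateChar χ ψ a`.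
If `m ∣ N`, the Fermat variety `X_m^r` of degree `m` is a quotient of `X^r`: its characters are the
`a` with `m a_i = 0`.  The characters of a product of Fermat varieties are the concatenations of
the characters of the factors; those of `x_0^{m_0} + ... + x_{r+1}^{m_{r+1}} = 0` are the `a` with
`m_i a_i = 0`.

`Alg χ ψ a` says that `a` is obtained from the following characters, for which `V(a)` is spanned by
classes of algebraic cycles, by rules which preserve this property:
* `{c, -c}`: the points of `X^0`;
* `a + b`, where `a`, `b` are characters of the Fermat curve `C` and `V(a) ⊗ V(b) ⊂ H²(C × C)` are
  Tate classes: Tate's theorem of 1966 (`j = 1`, abelian varieties), and the isomorphism below;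
* the standard characters `(c, c + N/d, ..., c + (d-1)N/d, -dc)` (`d` an odd prime) and
  `(c, c + N/2, -2c, N/2)`: Aoki and Shioda;
* `a, b ↦ a + b` and `{c, -c} + a ↦ a`: the isomorphism `V(a) ⊗ V(b)(-1) ≅ V(a + b)` given by
  algebraic correspondences in both directions (Shioda and Katsura's inductive structure).

Call `d` almost supersingular if for every prime `l ∣ d` the prime-to-`l` part of `d` divides some
`p ^ i + 1`, `p` the characteristic.  This holds if `d` is a prime power, if `d` divides some
`p ^ i + 1`, and if `d = l ^ a * r ^ b`, where `l`, `r` are odd primes modulo which the order of
`p` is even.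

The theorem: let the order of each component `a_i` of the Tate character `a` be an almost
supersingular number or twice an odd one.  Then `a` is of the above kind.  So the Tate conjecture
holds, in all codimensions, for all products of Fermat varieties of arbitrary dimensions whose
degrees are almost supersingular numbers or twice odd ones; the degrees of the factors may be
different.  Its proof contains Stickelberger's theorem (the valuations of Gauss sums), the
nonvanishing of generalized Bernoulli numbers `B_{1,χ}`, the separation of the composite orders,
and the generation of the lattices of relations.
-/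

namespace Pool.Agent.Results.MP_950c68_ag.FermatVarieties

open Fermat950

/-- Every Tate character with good components comes from the algebraic classes listed above. -/
theorem result (N : ℕ) (k : Type) [Field k] [Fintype k]
    (χ : MulChar k ℂ) (hχ : orderOf χ = N) (ψ : AddChar k ℂ) (hψ : ψ ≠ 1)
    (a : Multiset (ZMod N)) (hne : a ≠ 0) (h0 : 0 ∉ a) (hsum : a.sum = 0)
    (heven : Even (Multiset.card a)) (hgood : ∀ x ∈ a, Good (ringChar k) x)
    (hT : TateChar χ ψ a) : Alg χ ψ a :=
  almost_main N k χ hχ ψ hψ a hne h0 hsum heven hgood hT

end Pool.Agent.Results.MP_950c68_ag.FermatVarieties
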