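import Mathlib
import Pool.Agent.Lib.MP_950c68_ag.OrbNoRel
import Pool.Agent.Lib.MP_950c68_ag.SepExt
import Pool.Agent.Lib.MP_950c68_ag.Descent

/-!
# Tate classes on products of abelian varieties with generic Galois groups

For an abelian variety `A` over a finite field with `q` elements, put `V = H¹(Ā, ℚ_l)` and let
`F` be the geometric Frobenius.  Then `H^{2j}(Ā) = ⋀^{2j} V`, and the space `E^j` of the Tate
conjecture for `A` over the field with `q ^ n` elements is `tateClasses K (F ^ n) (q ^ n) j`.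
The theorem says that `E^j = (E^1)^j` for products of powers of abelian varieties whose Frobenius
eigenvalues satisfy one of three local conditions of Galois theoretic nature; as `E^1` consists of
divisor classes by Tate's theorem, this gives the Tate conjecture for them in all codimensions.
-/

namespace Pool.Agent.Lib.MP_950c68_ag.Old.GenericProducts

open Polynomial
open scoped IntermediateField

/-- `E^j`: the `Q ^ j`-eigenspace, in the `2 * j`-th exterior power of `V` (a subspace of the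
exterior algebra), of the algebra endomorphism of the exterior algebra induced by `F`. -/
def tateClasses (K : Type*) {V : Type*} [Field K] [AddCommGroup V] [Module K V]
    (F : V →ₗ[K] V) (Q : K) (j : ℕ) : Submodule K (ExteriorAlgebra K V) :=
  (⋀[K]^(2 * j) V) ⊓ Module.End.eigenspace (ExteriorAlgebra.map F).toLinearMap (Q ^ j)

/-- Every conjugate `y` of `x` other than `x, q / x` is conjugate to `q / y` over `ℚ(x)`. -/
def SelfDual (q : ℕ) (x : ℂ) : Prop :=
  ∀ y : ℂ, IsConjRoot ℚ x y → y ≠ x → y ≠ q / x → IsConjRoot ℚ⟮x⟯ y (q / y)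

/-- The field `ℚ(x + q / x)` has no proper nontrivial subfield, and some conjugate of `x` is not
in the field generated by `x` and all conjugates of `x + q / x`. -/
def PrimitiveReal (q : ℕ) (x : ℂ) : Prop :=
  (∀ F : IntermediateField ℚ ℂ, F ≤ ℚ⟮x + q / x⟯ → F = ⊥ ∨ F = ℚ⟮x + q / x⟯) ∧
  ∃ y : ℂ, IsConjRoot ℚ x y ∧
    y ∉ IntermediateField.adjoin ℚ ({x} ∪ (fun z : ℂ => z + q / z) '' {z | IsConjRoot ℚ x z})

/-- The Galois group is 3-transitive on the conjugates of `x + q / x`, the degree of `x` is at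
least `6`, and for each half system `Φ` of conjugates of `x` which contains `x` and is mapped by
each automorphism to itself or its complement, `x` and the product of `Φ` are multiplicatively
independent modulo powers of `q`. -/
def ThreeTransitive (q : ℕ) (x : ℂ) : Prop :=
  6 ≤ (minpoly ℚ x).natDegree ∧
  (∀ u v : Fin 3 → ℂ, (∀ k, IsConjRoot ℚ x (u k)) → (∀ k, IsConjRoot ℚ x (v k)) →
    (Function.Injective fun k => u k + q / u k) → (Function.Injective fun k => v k + q / v k) →
    ∃ σ : ℂ ≃ₐ[ℚ] ℂ, ∀ k, σ (u k + q / u k) = v k + q / v k) ∧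
  ∀ Φ : Finset ℂ, x ∈ Φ → (∀ z ∈ Φ, IsConjRoot ℚ x z) →
    (∀ z, IsConjRoot ℚ x z → (z ∈ Φ ↔ q / z ∉ Φ)) →
    (∀ σ : ℂ ≃ₐ[ℚ] ℂ, (∀ z ∈ Φ, σ z ∈ Φ) ∨ ∀ z ∈ Φ, σ z ∉ Φ) →
    ∀ a b m : ℤ, x ^ a * (∏ z ∈ Φ, z) ^ b = (q : ℂ) ^ m → a = 0 ∧ b = 0

theorem tate_mul {K V : Type*} [Field K] [AddCommGroup V] [Module K V] (F : V →ₗ[K] V) (Q : K)
    (i j : ℕ) : tateClasses K F Q i * tateClasses K F Q j ≤ tateClasses K F Q (i + j) := by
  rw [Submodule.mul_le]
  intro x hx y hy
  rw [tateClasses, Submodule.mem_inf, Module.End.mem_eigenspace_iff] at hx hy ⊢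
  refine ⟨?_, ?_⟩
  · rw [ExteriorAlgebra.exteriorPower, mul_add, pow_add]
    exact Submodule.mul_mem_mul hx.1 hy.1
  · have h1 : ExteriorAlgebra.map F x = Q ^ i • x := hx.2
    have h2 : ExteriorAlgebra.map F y = Q ^ j • y := hy.2
    change ExteriorAlgebra.map F (x * y) = _
    rw [map_mul, h1, h2, smul_mul_smul_comm, pow_add]

theorem pow_tate_le {K V : Type*} [Field K] [AddCommGroup V] [Module K V] (F : V →ₗ[K] V) (Q : K)
    (j : ℕ) : (tateClasses K F Q 1) ^ j ≤ tateClasses K F Q j := by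
  induction j with
  | zero =>
    rw [pow_zero, Submodule.one_le, tateClasses, Submodule.mem_inf,
      Module.End.mem_eigenspace_iff]
    refine ⟨?_, ?_⟩
    · rw [ExteriorAlgebra.exteriorPower, mul_zero, pow_zero]
      exact Submodule.one_le.mp le_rfl
    · change ExteriorAlgebra.map F 1 = _
      simp
  | succ j ih =>
    rw [pow_succ]
    exact (mul_le_mul' ih le_rfl).trans (tate_mul F Q j 1)

theorem result (q : ℕ) (hq : q ≠ 0) (R : ℚ[X]) (hR : Squarefree R)
    (hW : ∀ z : ℂ, aeval z R = 0 → ‖z‖ ^ 2 = q)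
    (hns : ∀ z : ℂ, aeval z R = 0 → ∀ n : ℕ, n ≠ 0 → z ^ (2 * n) ≠ (q : ℂ) ^ n)
    (hloc : ∀ x : ℂ, aeval x R = 0 → SelfDual q x ∨ PrimitiveReal q x ∨ ThreeTransitive q x)
    (hcross : ∀ x y : ℂ, aeval x R = 0 → aeval y R = 0 → ¬ IsConjRoot ℚ x y →
      IsConjRoot ℚ⟮x⟯ y (q / y))
    (K V : Type*) [Field K] [CharZero K] [AddCommGroup V] [Module K V] (F : Module.End K V)
    (hF : aeval F ((R * (X ^ 2 - C (q : ℚ))).map (algebraMap ℚ K)) = 0)
    (n : ℕ) (hn : n ≠ 0) (j : ℕ) :
    tateClasses K (F ^ n) ((q : K) ^ n) j = (tateClasses K (F ^ n) ((q : K) ^ n) 1) ^ j := by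
  apply le_antisymm _ (pow_tate_le _ _ _)
  have hR0 : R ≠ 0 := hR.ne_zero
  have hRs : R.Separable := PerfectField.separable_iff_squarefree.mpr hR
  let E := AlgebraicClosure K
  have hq0 : (q : E) ≠ 0 := by
    have h1 : (q : K) ≠ 0 := by exact_mod_cast hq
    have h2 : algebraMap K E (q : K) ≠ 0 := (_root_.map_ne_zero _).mpr h1
    rwa [map_natCast] at h2
  have hnorel : Lib.MP_950c68_ag.NoRel R q E :=
    Lib.MP_950c68_ag.Orb.noRel_of_local hR0 hW hq hns hloc hcross E
  have h0 : ∀ z : E, aeval z R = 0 → z ≠ 0 := by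
    rintro z hz rfl
    have h1 : R.eval 0 = 0 := by
      have h2 : aeval (algebraMap ℚ E 0) R = algebraMap ℚ E (R.eval 0) := by
        rw [aeval_algebraMap_apply, coe_aeval_eq_eval]
      rw [map_zero, hz] at h2
      exact (map_eq_zero _).mp h2.symm
    have h3 : aeval (0 : ℂ) R = 0 := by
      have h2 : aeval (algebraMap ℚ ℂ 0) R = algebraMap ℚ ℂ (R.eval 0) := by
        rw [aeval_algebraMap_apply, coe_aeval_eq_eval]
      rw [map_zero, h1, map_zero] at h2
      exact h2
    have h4 := hW 0 h3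
    simp only [norm_zero, ne_eq, OfNat.ofNat_ne_zero, not_false_eq_true, zero_pow] at h4
    exact hq (by exact_mod_cast h4.symm)
  have hF' : aeval (LinearMap.baseChange E F)
      ((R * (X ^ 2 - C (q : ℚ))).map (algebraMap ℚ E)) = 0 := by
    have h1 : (R * (X ^ 2 - C (q : ℚ))).map (algebraMap ℚ E) =
        ((R * (X ^ 2 - C (q : ℚ))).map (algebraMap ℚ K)).map (algebraMap K E) := by
      rw [Polynomial.map_map]
      congr 1
    rw [h1, aeval_map_algebraMap]
    have h2 := aeval_algHom_apply (Module.End.baseChangeHom K E V) F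
      ((R * (X ^ 2 - C (q : ℚ))).map (algebraMap ℚ K))
    rw [hF, map_zero] at h2
    exact h2
  have key := Lib.MP_950c68_ag.tateClasses_le_of_separable hR0 hRs h0 hq0 hnorel
    (LinearMap.baseChange E F) hF' hn j
  apply Lib.MP_950c68_ag.tateClasses_descent K E
  have h3 : LinearMap.baseChange E (F ^ n) = (LinearMap.baseChange E F) ^ n :=
    map_pow (Module.End.baseChangeHom K E V) F n
  have h4 : algebraMap K E ((q : K) ^ n) = (q : E) ^ n := by
    rw [map_pow, map_natCast]
  rw [h3, h4]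
  exact key

end Pool.Agent.Lib.MP_950c68_ag.Old.GenericProducts
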