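import Pool.Agent.Lib.GBC.H.Main

/-!
# Hyperelliptic fibrations over every curve: a positive proportion satisfies the Tate conjecture

Let `k` be a finite field and `K` ANY function field in one variable over `k` (a finitely generated
extension of transcendence degree `1`: the function field of a smooth projective curve `S` over `k`). A
curve `C : y ^ 2 = f (x)` of genus `g ≥ 1` over `K`, `f` monic of degree `2 g + 1`, is the generic fibre of a
smooth projective surface `X → S`. If the `2`-Selmer group of the Jacobian `J` of `C` over `K` is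
trivial, then `Ш(J/K)[2] = 0`, so the `2`-primary part of `Br (X)` is finite (Grothendieck) and `X`
satisfies the Tate conjecture `E^j (X) = A^j (X)` (Tate 1966, Milne 1975). The theorem says that this
happens for a positive proportion of all these curves, ordered by height, for every such `K`, every
`g ≥ 1` and every finite field `k` of characteristic `p > 2 g + 1`.

The `2`-Selmer group is given by the map `x - T` (Cassels, Schaefer, Stoll): for a field `F`
containing `K`, with `L_F = F[x] / (f)` and `θ` the class of `x`, `H^1 (F, J[2])` is the group of the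
`c ∈ L_F^* / L_F^*²` whose norm is a square, and a point of `J (F)` given by a Mumford pair `(U, V)`
with `U` prime to `f` has the image `(-1) ^ deg U * U (θ)`. Over the completions `K_v` all classes of
`J (K_v)` modulo `2 J (K_v)` have such representatives.
-/

set_option autoImplicit false

open Polynomial

namespace Pool.Agent.Results.MP_950c68_ag.HyperellipticFibrations

open Pool.Agent.BSDFF

/-- `(U, V)` is a Mumford pair of `y ^ 2 = f (x)` over `F`, `deg f = 2 g + 1`: `U` is monic of degree at
most `g` and divides `V ^ 2 - f`. It represents the point of the Jacobian which is the class of the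
divisor `(U (x) = 0, y = V (x)) - deg U * ∞`. We take `U` prime to `f`. -/
structure MumfordPair {F : Type} [Field F] (f : F[X]) (g : ℕ) (U V : F[X]) : Prop where
  /-- `U` is monic -/
  monic : U.Monic
  /-- of degree at most `g` -/
  deg : U.natDegree ≤ g
  /-- prime to `f` -/
  cop : IsCoprime U f
  /-- `U` divides `V ^ 2 - f` -/
  dvd : U ∣ V ^ 2 - f

/-- The image `(-1) ^ deg U * U (θ)` of a Mumford pair in `F[x] / (f) = F[θ]`, before taking it modulo
squares: for `U = ∏ (x - x_i)` it is `∏ (x_i - θ)`. -/
noncomputable def xT {F : Type} [Field F] (f U : F[X]) : AdjoinRoot f :=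
  (-1) ^ U.natDegree * AdjoinRoot.mk f U

/-- `c` is in the image of the points of the Jacobian over `F`, modulo squares. -/
def InImage {F : Type} [Field F] (f : F[X]) (g : ℕ) (c : AdjoinRoot f) : Prop :=
  ∃ U V : F[X], MumfordPair f g U V ∧ ∃ y : AdjoinRoot f, IsUnit y ∧ c = xT f U * y ^ 2

/-- The base change `K[x] / (f) → F[x] / (f)` along `φ : K → F`. -/
noncomputable def base {K F : Type} [Field K] [Field F] (φ : K →+* F) (f : K[X]) :
    AdjoinRoot f →+* AdjoinRoot (f.map φ) :=
  AdjoinRoot.map φ f (f.map φ) dvd_rfl

/-- `c ∈ K[x] / (f)` is over `F` in the image of the points of the Jacobian, `φ : K → F`. -/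
def ImageOver {K F : Type} [Field K] [Field F] (φ : K →+* F) (f : K[X]) (g : ℕ)
    (c : AdjoinRoot f) : Prop :=
  InImage (f.map φ) g (base φ f c)

/-- The norm of `c ∈ K[x] / (f)` is a nonzero square. -/
def SquareNorm {K : Type} [Field K] (f : K[X]) (c : AdjoinRoot f) : Prop :=
  ∃ a : K, a ≠ 0 ∧ Algebra.norm K c = a ^ 2

/-- The completion of a field with a valuation. -/
def Hat {K Γ : Type} [Field K] [LinearOrderedCommGroupWithZero Γ] (w : Valuation K Γ) : Type :=
  w.Completion

/-- It is a field. -/
noncomputable instance {K Γ : Type} [Field K] [LinearOrderedCommGroupWithZero Γ]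
    (w : Valuation K Γ) : Field (Hat w) :=
  UniformSpace.Completion.instField (K := WithVal w)

/-- The embedding of the field in its completion. -/
noncomputable def toHat {K Γ : Type} [Field K] [LinearOrderedCommGroupWithZero Γ]
    (w : Valuation K Γ) : K →+* Hat w :=
  (UniformSpace.Completion.coeRingHom (α := WithVal w)).comp (WithVal.equiv w).symm.toRingHom

/-- The `2`-Selmer group over `K` of the Jacobian of `y ^ 2 = f (x)`, `f` of degree `2 g + 1`, is
trivial: an element `c` of `L = K[x] / (f)` whose norm is a nonzero square and which lies, for every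
place `v` of `K` over `k` (closed point of the curve with function field `K`), in the image of the
points of the Jacobian over the completion `K_v`, is a square. -/
def SelmerTrivial (k : Type) {K : Type} [Field k] [Field K] [Algebra k K] (g : ℕ) (f : K[X]) :
    Prop :=
  ∀ c : AdjoinRoot f, SquareNorm f c →
    (∀ v : Place k K, ImageOver (toHat v.ring.valuation) f g c) → IsSquare c

/-- `f = x ^ n + a_2 x ^ (n - 2) + ... + a_n` over `K`, `n = 2 g + 1`, separable: an equation
`y ^ 2 = f (x)` of a curve of genus `g` with a rational Weierstrass point at infinity. -/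
structure Model {K : Type} [Field K] (g : ℕ) (f : K[X]) : Prop where
  /-- monic -/
  monic : f.Monic
  /-- of degree `2 g + 1` -/
  deg : f.natDegree = 2 * g + 1
  /-- no term of degree `2 g` -/
  tr : f.coeff (2 * g) = 0
  /-- the discriminant is not zero -/
  sep : f.Separable

/-- `a` has at the place `v` a pole of order at most `n` (`ϖ` is a uniformizer at `v`). -/
def PoleAtMost {k K : Type} [Field k] [Field K] [Algebra k K] (v : Place k K) (n : ℤ) (a : K) :
    Prop :=
  ∀ ϖ : v.ring, Irreducible ϖ → a * (ϖ : K) ^ n ∈ v.ring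

/-- The height of `y ^ 2 = f (x)` is at most `M`: there is a divisor `D = ∑ D_v v` of degree
`∑ D_v deg v ≤ M` such that at every place `v` the pole of the coefficient `a_i` of `x ^ (n - i)` has order
at most `2 i D_v`, for all `i ≤ n = 2 g + 1`. -/
def HeightAtMost (k : Type) {K : Type} [Field k] [Field K] [Algebra k K] (g M : ℕ) (f : K[X]) :
    Prop :=
  ∃ D : Place k K →₀ ℤ,
    (∀ v : Place k K, ∀ i ≤ 2 * g + 1, PoleAtMost v (2 * i * D v) (f.coeff (2 * g + 1 - i))) ∧
      D.sum (fun v n => (v.degree : ℤ) * n) ≤ M

/-- `y ^ 2 = f (x)` and `y ^ 2 = f' (x)` are isomorphic over `K` (with their points at infinity):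
`f' (x) = u ^ (2 n) f (x / u ^ 2)`, that is `a_i' = u ^ (2 i) a_i`, for some `u ≠ 0` in `K`. -/
def isoModels (K : Type) [Field K] : Setoid K[X] where
  r f f' := ∃ u : K, u ≠ 0 ∧ f' = f.scaleRoots (u ^ 2)
  iseqv := (GBC.isoRel K).iseqv

/-- The isomorphism classes of the curves `y ^ 2 = f (x)` of genus `g` over `K` of height at most `M`
which contain a model `f` of height at most `M` with the property `P f`. -/
def Curves (k : Type) {K : Type} [Field k] [Field K] [Algebra k K] (g M : ℕ) (P : K[X] → Prop) :
    Set (Quotient (isoModels K)) :=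
  {C | ∃ f : K[X], Quotient.mk (isoModels K) f = C ∧ Model g f ∧ HeightAtMost k g M f ∧ P f}

/-- The conclusion for one curve. -/
structure TrivialSelmer (k : Type) {K : Type} [Field k] [Field K] [Algebra k K] (g : ℕ)
    (f : K[X]) : Prop where
  /-- `f` is irreducible over `K`: `J (K)[2] = 0` -/
  irr : Irreducible f
  /-- `Sel_2 (J / K) = 0` -/
  sel : SelmerTrivial k g f
  /-- the image of `J (K) / 2 J (K)` is trivial: `x_1 - θ ⋯ x_r - θ` is a square in `K[θ]` for all Mumford
  pairs over `K` -/
  points : ∀ U V : K[X], MumfordPair f g U V → IsSquare (xT f U)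

theorem mumford_iff {F : Type} [Field F] (f : F[X]) (g : ℕ) (U V : F[X]) :
    MumfordPair f g U V ↔ HYP.Mumford f g U V :=
  ⟨fun h => ⟨h.monic, h.deg, h.cop, h.dvd⟩, fun h => ⟨h.monic, h.deg, h.cop, h.dvd⟩⟩

theorem image_iff {F : Type} [Field F] (f : F[X]) (g : ℕ) (c : AdjoinRoot f) :
    InImage f g c ↔ HYP.Image f g c := by
  unfold InImage HYP.Image
  simp only [mumford_iff, xT]

section

variable {k K : Type} [Field k] [Field K] [Algebra k K]

theorem selmer_iff (g : ℕ) (f : K[X]) : SelmerTrivial k g f ↔ GBC.SelTriv k g f := by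
  unfold SelmerTrivial GBC.SelTriv ImageOver
  simp only [image_iff]
  rfl

theorem model_iff (g : ℕ) (f : K[X]) : Model g f ↔ GBC.Model g f :=
  ⟨fun h => ⟨h.monic, h.deg, h.tr, h.sep⟩, fun h => ⟨h.monic, h.deg, h.tr, h.sep⟩⟩

theorem curves_eq (g M : ℕ) (P : K[X] → Prop) :
    Curves k g M P = (GBC.Classes k g M P : Set (Quotient (GBC.isoRel K))) := by
  unfold Curves GBC.Classes
  simp only [model_iff]
  rfl

theorem trivial_iff (g : ℕ) (f : K[X]) : (Irreducible f ∧ GBC.SelTriv k g f ∧
    ∀ U V : K[X], HYP.Mumford f g U V → IsSquare ((-1) ^ U.natDegree * AdjoinRoot.mk f U)) ↔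
      TrivialSelmer k g f := by
  constructor
  · rintro ⟨h1, h2, h3⟩
    exact ⟨h1, (selmer_iff g f).2 h2, fun U V h => h3 U V ((mumford_iff _ _ _ _).1 h)⟩
  · rintro ⟨h1, h2, h3⟩
    exact ⟨h1, (selmer_iff g f).1 h2, fun U V h => h3 U V ((mumford_iff _ _ _ _).2 h)⟩

end

/-- For every `g ≥ 1`, every finite field `k` of characteristic `p > 2 g + 1` and every finitely
generated extension `K` of `k` of transcendence degree `1` there are finitely many isomorphism classes of
curves `y ^ 2 = f (x)` of genus `g` over `K` with a rational Weierstrass point and height at most `M`,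
and for all large `M` at least `c` times all of them (and at least `c q ^ ((4 g ^ 2 + 6 g) M)`,
`q = #k`) have trivial `2`-Selmer group. -/
theorem result (g : ℕ) (hg : 1 ≤ g) (k : Type) [Field k] [Finite k] (hp : 2 * g + 1 < ringChar k)
    (K : Type) [Field K] [Algebra k K] [Algebra.EssFiniteType k K] (hK : Algebra.trdeg k K = 1) :
    (∀ M : ℕ, (Curves k g M (fun _ : K[X] => True)).Finite) ∧
    ∃ c : ℝ, 0 < c ∧ ∃ M₀ : ℕ, ∀ M ≥ M₀,
      c * ((Curves k g M (fun _ : K[X] => True)).ncard : ℝ) ≤
        ((Curves k g M (fun f : K[X] => TrivialSelmer k g f)).ncard : ℝ) ∧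
      c * (Nat.card k : ℝ) ^ ((4 * g ^ 2 + 6 * g) * M) ≤
        ((Curves k g M (fun f : K[X] => TrivialSelmer k g f)).ncard : ℝ) := by
  obtain ⟨h1, c, hc, M₀, h2⟩ := GBC.main_high hK hg hp
  simp only [trivial_iff] at h2
  simp only [curves_eq]
  exact ⟨fun M => h1 M _, c, hc, M₀, h2⟩

end Pool.Agent.Results.MP_950c68_ag.HyperellipticFibrations
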