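import Pool.Agent.Lib.HYP.C.Count
import Pool.Agent.Lib.HYP.G.Twist
import Pool.Agent.Lib.HYP.H.Main
import Pool.Agent.Lib.HYP.H.Mum
import Pool.Agent.Lib.HYP.H.IrrTw

/-!
# A positive proportion of hyperelliptic pencils over a finite field satisfies the Tate conjecture

Let `k` be a finite field and `K = k(t)`. A curve `C : y ^ 2 = f (x)` of genus `g` over `K`, `f` monic of
degree `2 g + 1`, is the generic fibre of a smooth projective surface `X → ℙ¹` over `k`. If the
`2`-Selmer group of the Jacobian `J` of `C` over `K` is trivial, then `Ш(J/K)[2] = 0`, so the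
`2`-primary part of `Br (X)` is finite (Grothendieck) and `X` satisfies the Tate conjecture
`E^j (X) = A^j (X)` (Tate 1966, Milne 1975). The theorem says that this happens for a positive
proportion of all these curves, ordered by height, for every `g ≥ 2` and every finite field `k` of
characteristic `p > 2 g + 1`.

The `2`-Selmer group is given by the map `x - T` (Cassels, Schaefer, Stoll): for a field `F`
containing `K`, with `L_F = F[x] / (f)` and `θ` the class of `x`, `H^1 (F, J[2])` is the group of the
`c ∈ L_F^* / L_F^*²` whose norm is a square, and a point of `J (F)` given by a Mumford pair `(U, V)`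
with `U` prime to `f` has the image `(-1) ^ deg U * U (θ)`. Over the completions `K_v` all classes of
`J (K_v)` modulo `2 J (K_v)` have such representatives.
-/

set_option autoImplicit false

open Polynomial

namespace Pool.Agent.Lib.MP_950c68_ag.Old.HyperellipticPencils

open Pool.Agent.BSDFF

/-- `(U, V)` is a Mumford pair of `y ^ 2 = f (x)` over `F`, `deg f = 2 g + 1`: `U` is monic of degree at
most `g` and divides `V ^ 2 - f`. It represents the point of the Jacobian which is the class of the
divisor `(U (x) = 0, y = V (x)) - deg U * ∞`. We take `U` prime to `f`. -/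
structure MumfordPair {F : Type} [Field F] (f : F[X]) (g : ℕ) (U V : F[X]) : Prop where
  /-- `U` is monic -/
  monic : U.Monic
  /-- of degree at most `g` -/
  deg : U.natDegree ≤ g
  /-- prime to `f` -/
  cop : IsCoprime U f
  /-- `U` divides `V ^ 2 - f` -/
  dvd : U ∣ V ^ 2 - f

/-- The image `(-1) ^ deg U * U (θ)` of a Mumford pair in `F[x] / (f) = F[θ]`, before taking it modulo
squares: for `U = ∏ (x - x_i)` it is `∏ (x_i - θ)`. -/
noncomputable def xT {F : Type} [Field F] (f U : F[X]) : AdjoinRoot f :=
  (-1) ^ U.natDegree * AdjoinRoot.mk f U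

/-- `c` is in the image of the points of the Jacobian over `F`, modulo squares. -/
def InImage {F : Type} [Field F] (f : F[X]) (g : ℕ) (c : AdjoinRoot f) : Prop :=
  ∃ U V : F[X], MumfordPair f g U V ∧ ∃ y : AdjoinRoot f, IsUnit y ∧ c = xT f U * y ^ 2

/-- The base change `K[x] / (f) → F[x] / (f)` along `φ : K → F`. -/
noncomputable def base {K F : Type} [Field K] [Field F] (φ : K →+* F) (f : K[X]) :
    AdjoinRoot f →+* AdjoinRoot (f.map φ) :=
  AdjoinRoot.map φ f (f.map φ) dvd_rfl

/-- `c ∈ K[x] / (f)` is over `F` in the image of the points of the Jacobian, `φ : K → F`. -/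
def ImageOver {K F : Type} [Field K] [Field F] (φ : K →+* F) (f : K[X]) (g : ℕ)
    (c : AdjoinRoot f) : Prop :=
  InImage (f.map φ) g (base φ f c)

/-- The norm of `c ∈ K[x] / (f)` is a nonzero square. -/
def SquareNorm {K : Type} [Field K] (f : K[X]) (c : AdjoinRoot f) : Prop :=
  ∃ a : K, a ≠ 0 ∧ Algebra.norm K c = a ^ 2

/-- The completion of a field with a valuation. -/
def Hat {K Γ : Type} [Field K] [LinearOrderedCommGroupWithZero Γ] (w : Valuation K Γ) : Type :=
  w.Completion

/-- It is a field. -/
noncomputable instance {K Γ : Type} [Field K] [LinearOrderedCommGroupWithZero Γ]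
    (w : Valuation K Γ) : Field (Hat w) :=
  UniformSpace.Completion.instField (K := WithVal w)

/-- The embedding of the field in its completion. -/
noncomputable def toHat {K Γ : Type} [Field K] [LinearOrderedCommGroupWithZero Γ]
    (w : Valuation K Γ) : K →+* Hat w :=
  (UniformSpace.Completion.coeRingHom (α := WithVal w)).comp (WithVal.equiv w).symm.toRingHom

/-- The `2`-Selmer group over `K` of the Jacobian of `y ^ 2 = f (x)`, `f` of degree `2 g + 1`, is
trivial: an element `c` of `L = K[x] / (f)` whose norm is a nonzero square and which lies, for every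
place `v` of `K` over `k` (for `K = k(t)`: closed point of the projective line over `k`, `∞`
included), in the image of the points of the Jacobian over the completion `K_v`, is a square. -/
def SelmerTrivial (k : Type) {K : Type} [Field k] [Field K] [Algebra k K] (g : ℕ) (f : K[X]) :
    Prop :=
  ∀ c : AdjoinRoot f, SquareNorm f c →
    (∀ v : Place k K, ImageOver (toHat v.ring.valuation) f g c) → IsSquare c

/-- `f` with coefficients in `k(t)`. -/
noncomputable abbrev overK {k : Type} [Field k] (f : k[X][X]) : (RatFunc k)[X] :=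
  f.map (algebraMap k[X] (RatFunc k))

/-- `f = x ^ n + a_2 x ^ (n - 2) + ... + a_n`, `n = 2 g + 1`, `a_i` in `k[t]` of degree at most `2 i M`,
discriminant nonzero, and there is no prime `π` of `k[t]` such that `π ^ (2 i)` divides `a_i` for all
`i`: the minimal equation `y ^ 2 = f (x)` of a curve of genus `g` over `k(t)` with a rational
Weierstrass point at infinity, of height at most `M`. -/
structure MinimalModel {k : Type} [Field k] (g M : ℕ) (f : k[X][X]) : Prop where
  /-- monic -/
  monic : f.Monic
  /-- of degree `2 g + 1` -/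
  deg : f.natDegree = 2 * g + 1
  /-- no term of degree `2 g` -/
  tr : f.coeff (2 * g) = 0
  /-- the height is at most `M` -/
  height : ∀ i ≤ 2 * g + 1, (f.coeff (2 * g + 1 - i)).natDegree ≤ 2 * i * M
  /-- the discriminant is not zero -/
  sep : (overK f).Separable
  /-- minimality -/
  minimal : ∀ π : k[X], Irreducible π → ∃ i, 1 ≤ i ∧ i ≤ 2 * g + 1 ∧
    ¬ π ^ (2 * i) ∣ f.coeff (2 * g + 1 - i)

/-- The conclusion for one curve. -/
structure TrivialSelmer {k : Type} [Field k] (g : ℕ) (f : k[X][X]) : Prop where
  /-- `f` is irreducible over `k(t)`: `J (K)[2] = 0` -/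
  irr : Irreducible (overK f)
  /-- `Sel_2 (J / K) = 0` -/
  sel : SelmerTrivial k g (overK f)
  /-- the image of `J (K) / 2 J (K)` is trivial: `x_1 - θ ⋯ x_r - θ` is a square in `K[θ]` for all Mumford
  pairs over `K` -/
  points : ∀ U V : (RatFunc k)[X], MumfordPair (overK f) g U V → IsSquare (xT (overK f) U)

theorem mumford_iff {F : Type} [Field F] (f : F[X]) (g : ℕ) (U V : F[X]) :
    MumfordPair f g U V ↔ HYP.Mumford f g U V :=
  ⟨fun h => ⟨h.monic, h.deg, h.cop, h.dvd⟩, fun h => ⟨h.monic, h.deg, h.cop, h.dvd⟩⟩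

theorem image_iff {F : Type} [Field F] (f : F[X]) (g : ℕ) (c : AdjoinRoot f) :
    InImage f g c ↔ HYP.Image f g c := by
  unfold InImage HYP.Image
  simp only [mumford_iff, xT]

theorem selmer_iff {k : Type} [Field k] (g : ℕ) (f : k[X][X]) :
    SelmerTrivial k g (overK f) ↔ HYP.SelTriv g f := by
  unfold SelmerTrivial HYP.SelTriv ImageOver
  simp only [image_iff]
  rfl

theorem model_iff {k : Type} [Field k] (g M : ℕ) (f : k[X][X]) :
    MinimalModel g M f ↔ HYP.InH g M f := by
  constructor
  · intro h
    refine ⟨h.monic, h.deg, h.tr, ?_, h.sep, ?_⟩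
    · intro j hj
      have h1 := h.height (2 * g + 1 - j) (Nat.sub_le _ _)
      rw [Nat.sub_sub_self hj] at h1
      exact h1.trans (le_of_eq (by ring))
    · intro π hπ hall
      obtain ⟨i, h1, h2, h3⟩ := h.minimal π hπ
      apply h3
      have h4 := hall (2 * g + 1 - i) (by omega)
      rwa [Nat.sub_sub_self h2] at h4
  · intro h
    refine ⟨h.monic, h.deg, h.tr, ?_, h.sep, ?_⟩
    · intro i hi
      have h1 := h.degc (2 * g + 1 - i) (Nat.sub_le _ _)
      rw [Nat.sub_sub_self hi] at h1
      exact h1.trans (le_of_eq (by ring))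
    · intro π hπ
      by_contra hcon
      push Not at hcon
      apply h.min π hπ
      intro j hj
      have h1 := hcon (2 * g + 1 - j) (by omega) (Nat.sub_le _ _)
      rwa [Nat.sub_sub_self hj.le] at h1

/-- For every `g ≥ 2` and every finite field `k` of characteristic `p > 2 g + 1` a positive
proportion of all curves `y ^ 2 = f (x)` of genus `g` over `k(t)` with a rational Weierstrass point,
ordered by height, has trivial `2`-Selmer group. -/
theorem result (g : ℕ) (hg : 2 ≤ g) (k : Type) [Field k] [Finite k]
    (hp : 2 * g + 1 < ringChar k) :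
    (∀ M : ℕ, Finite {f : k[X][X] // MinimalModel g M f}) ∧
    ∃ c : ℝ, 0 < c ∧ ∃ M₀ : ℕ, ∀ M ≥ M₀,
      c * (Nat.card {f : k[X][X] // MinimalModel g M f} : ℝ) ≤
        (Nat.card {f : k[X][X] // MinimalModel g M f ∧ TrivialSelmer g f} : ℝ) := by
  have hn : ((2 * g + 1 : ℕ) : k) ≠ 0 := HYP.natCast_ne_zero_of_lt_ringChar (by omega) hp
  obtain ⟨φ, hφ⟩ := HYP.exists_leadForm (k := k) g hn
  have key := HYP.density_of (by omega) hφ hn
    (fun f => Irreducible (overK f) ∧ HYP.SelTriv g f) (HYP.count g hg hp φ hφ) (by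
      intro V hV m f hf hdet
      obtain ⟨W, hW, hs⟩ := HYP.twist g hg hp hφ hf hV hdet
      refine ⟨W, hW, ?_, hs⟩
      have hD0 : (∏ π ∈ W, π) ≠ 0 :=
        Finset.prod_ne_zero_iff.2 fun π hπ => (hV π (hW hπ)).2.ne_zero
      refine HYP.irreducible_scale (D := algebraMap k[X] (RatFunc k) (∏ π ∈ W, π)) ?_
        (HYP.fK_scale hf.monic _) (hf.irreducible_map hφ)
      rw [map_ne_zero_iff _ (RatFunc.algebraMap_injective k)]
      exact hD0)
  simp only [model_iff]
  refine ⟨fun M => inferInstance, ?_⟩
  obtain ⟨c, hc, M₀, h⟩ := key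
  refine ⟨c, hc, M₀, fun M hM => (h M hM).trans (le_of_eq ?_)⟩
  have h1 : ∀ f : k[X][X], HYP.InH g M f ∧ Irreducible (overK f) ∧ HYP.SelTriv g f ↔
      HYP.InH g M f ∧ TrivialSelmer g f := by
    intro f
    constructor
    · rintro ⟨h1, h2, h3⟩
      refine ⟨h1, h2, (selmer_iff g f).2 h3, ?_⟩
      intro U V hUV
      exact HYP.mumford_isSquare (h1.monic.map _) h3 ((mumford_iff _ _ _ _).1 hUV)
    · rintro ⟨h1, h2⟩
      exact ⟨h1, h2.irr, (selmer_iff g f).1 h2.sel⟩
  simp only [h1]

end Pool.Agent.Lib.MP_950c68_ag.Old.HyperellipticPencils
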