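import Pool.Agent.Lib.SmJ.L.ResW
import Pool.Agent.Lib.SmJ.L.HalfFinal

/-!
Quadratic twists of the Jacobian of a hyperelliptic curve of any genus `g` over `k (t)`, `k` finite
of odd characteristic, whose Weierstrass points are all rational.

`C_D : y ^ 2 = ∏ (x - D a_i)`, `i = 0, ..., 2 g`, `a_i ∈ k[t]` distinct, is the quadratic twist by `D`
of `C : y ^ 2 = ∏ (x - a_i)`, and `J_D` its Jacobian. Let `V = J_D(K ^ s)[2 ^ ∞]` and let
`W = V ⊗ Z[ε] / ε ^ 2` with the action of `Gal(K ^ s / K)` twisted by `s ↦ 1 + deg (s) ε`, where
`s` acts as the `deg (s)`-th power of the Frobenius automorphism on the constants. When `D` runs over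
the squarefree polynomials of degree `n` and `n` tends to infinity, the Selmer groups of `V` and of
`W` have the same corank `r ≤ 1` for all `D` outside a set of density `0`. As these coranks are the
dimensions of the kernels of `F - 1` and of `(F - 1) ^ 2` on the cohomology group whose
characteristic polynomial of the Frobenius `F` is the `L`-function of `J_D`, the order of vanishing
of the `L`-function is `r`.
Among the `D` which are prime to some prime that divides
exactly one of the differences `a_i - a_j`, to an odd power (a set of positive lower density), one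
half of the `J_D` has corank `0` and a finite `2`-power torsion of its Tate-Shafarevich group, and
one half has corank `1`. So the Tate conjecture holds for the smooth projective surfaces over `k`
fibred over the projective line with generic fibre `C_D`, for the `D` of the first half.

`J_D(Ω)`, `Ω` a separable closure of `k (t)`, is the class group of `Ω[x, y] / (y ^ 2 - f_D)`
(the curve has one point at infinity). All Selmer groups are taken over `Ω`, with the local
conditions at the decomposition groups of all places; as `Gal(K_v ^ s / K_v)` is the decomposition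
group of a place of `Ω` above `v`, and a class of `H ^ 1 (K, J)` is trivial over the henselization
at `v` if and only if it is trivial over the completion at `v`, these are the usual local
conditions.
-/

set_option autoImplicit false

open Polynomial Pool.Agent.SmJ.R
open Pool.Agent.SmJ.L (brGraph EdgeAt MultJ)

namespace Pool.Agent.Lib.MP_950c68_ag.Old.OrdersOfVanishingForJacobians

/-- The coranks of the Selmer groups of `V = J_D[2 ^ ∞]` and of `W = V ⊗ Z[ε] / ε ^ 2` for the
quadratic twists `J_D`. -/
theorem result (k : Type) [Field k] [Finite k] (h2 : (2 : k) ≠ 0) (g : ℕ) (hg : 1 ≤ g)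
    (a : Fin (2 * g + 1) → k[X]) (ha : Function.Injective a) :
    ((brGraph a).Connected → Gen a ∧ ∃ P, EdgeAt a P) ∧
    (Gen a → ∃ δ : ℝ, 0 < δ ∧ ∀ ε : ℝ, 0 < ε → ∃ j n₀ : ℕ, ∀ n ≥ n₀,
      (Nat.card {D : k[X] // (Squarefree D ∧ D.natDegree = n) ∧
        ¬ (Good a j D ∧ Ord a D)} : ℝ) ≤
        ε * (Nat.card {D : k[X] // Squarefree D ∧ D.natDegree = n} : ℝ) ∧
      ((∃ P, EdgeAt a P) →
      δ * (Nat.card {D : k[X] // Squarefree D ∧ D.natDegree = n} : ℝ) ≤
        (Nat.card {D : k[X] // Squarefree D ∧ D.natDegree = n ∧ MultJ a D} : ℝ) ∧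
      |(Nat.card {D : k[X] // (Squarefree D ∧ D.natDegree = n ∧ MultJ a D) ∧
          Corank0 a D} : ℝ) -
        (Nat.card {D : k[X] // Squarefree D ∧ D.natDegree = n ∧ MultJ a D} : ℝ) / 2| ≤
        ε * (Nat.card {D : k[X] // Squarefree D ∧ D.natDegree = n ∧ MultJ a D} : ℝ) ∧
      |(Nat.card {D : k[X] // (Squarefree D ∧ D.natDegree = n ∧ MultJ a D) ∧
          Corank1 a D} : ℝ) -
        (Nat.card {D : k[X] // Squarefree D ∧ D.natDegree = n ∧ MultJ a D} : ℝ) / 2| ≤
        ε * (Nat.card {D : k[X] // Squarefree D ∧ D.natDegree = n ∧ MultJ a D} : ℝ))) :=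
  final_ofJH h2 (Pool.Agent.SmJ.L.half_hhalfJ h2) hg a ha

end Pool.Agent.Lib.MP_950c68_ag.Old.OrdersOfVanishingForJacobians
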