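import Mathlib
import Pool.Agent.Lib.MP_950c68_ag.OrbCluster
import Pool.Agent.Lib.MP_950c68_ag.SepExt
import Pool.Agent.Lib.MP_950c68_ag.Descent

/-!
# Tate classes on products of abelian varieties of prime dimension

For an abelian variety `A` over a finite field with `q` elements, put `V = H¹(Ā, ℚ_l)` and let
`F` be the geometric Frobenius.  Then `H^{2j}(Ā) = ⋀^{2j} V`, and the space `E^j` of the Tate
conjecture for `A` over the field with `q ^ n` elements is `tateClasses K (F ^ n) (q ^ n) j`.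

The theorem: `E^j = (E^1)^j` for all products of powers of abelian varieties `A_i` such that each
`A_i` either is simple of prime dimension or has only trivial relations between its Frobenius
eigenvalues, provided that for `i ≠ j` and all eigenvalues `x` of `A_i`, `y` of `A_j` the numbers
`y` and `q / y` are conjugate over `ℚ(x)` (or the same with `i` and `j` exchanged).  The last
condition holds if the intersection of `ℚ(x)` with the Galois closure of `ℚ(y)` is totally real.
As `E^1` consists of divisor classes by Tate's theorem, this gives the Tate conjecture for these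
products in all codimensions.
-/

namespace Pool.Agent.Results.MP_950c68_ag.PrimeProducts

open Polynomial
open scoped IntermediateField

/-- `E^j`: the `Q ^ j`-eigenspace, in the `2 * j`-th exterior power of `V` (a subspace of the
exterior algebra), of the algebra endomorphism of the exterior algebra induced by `F`. -/
def tateClasses (K : Type*) {V : Type*} [Field K] [AddCommGroup V] [Module K V]
    (F : V →ₗ[K] V) (Q : K) (j : ℕ) : Submodule K (ExteriorAlgebra K V) :=
  (⋀[K]^(2 * j) V) ⊓ Module.End.eigenspace (ExteriorAlgebra.map F).toLinearMap (Q ^ j)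

/-- The only multiplicative relations modulo powers of `q` between the complex roots of `S` are
the trivial ones: the exponents of `z` and `q / z` are equal. -/
def Free (q : ℕ) (S : ℚ[X]) : Prop :=
  ∀ (d : ℂ → ℤ) (m : ℤ), ∏ z ∈ (S.aroots ℂ).toFinset, z ^ d z = (q : ℂ) ^ m →
    ∀ z : ℂ, aeval z S = 0 → d z = d (q / z)

/-- `S` is irreducible of degree `2 l` with `l` a prime, different roots of `S` have different
`n`-th powers, and for each set `Φ` of roots which contains exactly one of `z, q / z` for every root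
`z` and which is mapped by every automorphism of `ℂ` into itself or off itself, no power of the
product of `Φ` is a power of `√q`. -/
def PrimeDegree (q : ℕ) (S : ℚ[X]) : Prop :=
  Irreducible S ∧ ∃ l : ℕ, l.Prime ∧ S.natDegree = 2 * l ∧
  (∀ x y : ℂ, aeval x S = 0 → aeval y S = 0 → x ≠ y → ∀ n : ℕ, n ≠ 0 → x ^ n ≠ y ^ n) ∧
  ∀ Φ : Finset ℂ, (∀ z ∈ Φ, aeval z S = 0) → (∀ z : ℂ, aeval z S = 0 → (z ∈ Φ ↔ q / z ∉ Φ)) →
    (∀ σ : ℂ ≃ₐ[ℚ] ℂ, (∀ z ∈ Φ, σ z ∈ Φ) ∨ ∀ z ∈ Φ, σ z ∉ Φ) →
    ∀ n : ℕ, n ≠ 0 → (∏ z ∈ Φ, z) ^ (2 * n) ≠ (q : ℂ) ^ (l * n)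

/-- For all roots `x` of `S` and `y` of `T` the numbers `y` and `q / y` are conjugate over
`ℚ(x)`. -/
def Separated (q : ℕ) (S T : ℚ[X]) : Prop :=
  ∀ x y : ℂ, aeval x S = 0 → aeval y T = 0 → IsConjRoot ℚ⟮x⟯ y (q / y)

theorem tate_mul {K V : Type*} [Field K] [AddCommGroup V] [Module K V] (F : V →ₗ[K] V) (Q : K)
    (i j : ℕ) : tateClasses K F Q i * tateClasses K F Q j ≤ tateClasses K F Q (i + j) := by
  rw [Submodule.mul_le]
  intro x hx y hy
  rw [tateClasses, Submodule.mem_inf, Module.End.mem_eigenspace_iff] at hx hy ⊢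
  refine ⟨?_, ?_⟩
  · rw [ExteriorAlgebra.exteriorPower, mul_add, pow_add]
    exact Submodule.mul_mem_mul hx.1 hy.1
  · have h1 : ExteriorAlgebra.map F x = Q ^ i • x := hx.2
    have h2 : ExteriorAlgebra.map F y = Q ^ j • y := hy.2
    change ExteriorAlgebra.map F (x * y) = _
    rw [map_mul, h1, h2, smul_mul_smul_comm, pow_add]

theorem pow_tate_le {K V : Type*} [Field K] [AddCommGroup V] [Module K V] (F : V →ₗ[K] V) (Q : K)
    (j : ℕ) : (tateClasses K F Q 1) ^ j ≤ tateClasses K F Q j := by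
  induction j with
  | zero =>
    rw [pow_zero, Submodule.one_le, tateClasses, Submodule.mem_inf,
      Module.End.mem_eigenspace_iff]
    refine ⟨?_, ?_⟩
    · rw [ExteriorAlgebra.exteriorPower, mul_zero, pow_zero]
      exact Submodule.one_le.mp le_rfl
    · change ExteriorAlgebra.map F 1 = _
      simp
  | succ j ih =>
    rw [pow_succ]
    exact (mul_le_mul' ih le_rfl).trans (tate_mul F Q j 1)

theorem result (q : ℕ) (hq : q ≠ 0) (I : Type*) [Fintype I] (R : I → ℚ[X])
    (hR : Squarefree (∏ i, R i))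
    (hW : ∀ i, ∀ z : ℂ, aeval z (R i) = 0 → ‖z‖ ^ 2 = q)
    (hns : ∀ i, ∀ z : ℂ, aeval z (R i) = 0 → ∀ n : ℕ, n ≠ 0 → z ^ (2 * n) ≠ (q : ℂ) ^ n)
    (hloc : ∀ i, Free q (R i) ∨ PrimeDegree q (R i))
    (hcross : ∀ i j, i ≠ j → Separated q (R i) (R j) ∨ Separated q (R j) (R i))
    (K V : Type*) [Field K] [CharZero K] [AddCommGroup V] [Module K V] (F : Module.End K V)
    (hF : aeval F (((∏ i, R i) * (X ^ 2 - C (q : ℚ))).map (algebraMap ℚ K)) = 0)
    (n : ℕ) (hn : n ≠ 0) (j : ℕ) :
    tateClasses K (F ^ n) ((q : K) ^ n) j = (tateClasses K (F ^ n) ((q : K) ^ n) 1) ^ j := by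
  apply le_antisymm _ (pow_tate_le _ _ _)
  have hR0 : (∏ i, R i) ≠ 0 := hR.ne_zero
  have hRs : (∏ i, R i).Separable := PerfectField.separable_iff_squarefree.mpr hR
  let E := AlgebraicClosure K
  have hq0 : (q : E) ≠ 0 := by
    have h1 : (q : K) ≠ 0 := by exact_mod_cast hq
    have h2 : algebraMap K E (q : K) ≠ 0 := (_root_.map_ne_zero _).mpr h1
    rwa [map_natCast] at h2
  have hnorel : Lib.MP_950c68_ag.NoRel (∏ i, R i) q E :=
    Lib.MP_950c68_ag.Orb.noRel_prod R hq hR hW hns hloc hcross E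
  have h0 : ∀ z : E, aeval z (∏ i, R i) = 0 → z ≠ 0 := by
    rintro z hz rfl
    have h1 : (∏ i, R i).eval 0 = 0 := by
      have h2 : aeval (algebraMap ℚ E 0) (∏ i, R i) = algebraMap ℚ E ((∏ i, R i).eval 0) := by
        rw [aeval_algebraMap_apply, coe_aeval_eq_eval]
      rw [map_zero, hz] at h2
      exact (map_eq_zero _).mp h2.symm
    have h3 : aeval (0 : ℂ) (∏ i, R i) = 0 := by
      have h2 : aeval (algebraMap ℚ ℂ 0) (∏ i, R i) = algebraMap ℚ ℂ ((∏ i, R i).eval 0) := by
        rw [aeval_algebraMap_apply, coe_aeval_eq_eval]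
      rw [map_zero, h1, map_zero] at h2
      exact h2
    rw [map_prod, Finset.prod_eq_zero_iff] at h3
    obtain ⟨i, _, hi⟩ := h3
    have h4 := hW i 0 hi
    simp only [norm_zero, ne_eq, OfNat.ofNat_ne_zero, not_false_eq_true, zero_pow] at h4
    exact hq (by exact_mod_cast h4.symm)
  have hF' : aeval (LinearMap.baseChange E F)
      (((∏ i, R i) * (X ^ 2 - C (q : ℚ))).map (algebraMap ℚ E)) = 0 := by
    have h1 : ((∏ i, R i) * (X ^ 2 - C (q : ℚ))).map (algebraMap ℚ E) =
        (((∏ i, R i) * (X ^ 2 - C (q : ℚ))).map (algebraMap ℚ K)).map (algebraMap K E) := by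
      rw [Polynomial.map_map]
      congr 1
    rw [h1, aeval_map_algebraMap]
    have h2 := aeval_algHom_apply (Module.End.baseChangeHom K E V) F
      (((∏ i, R i) * (X ^ 2 - C (q : ℚ))).map (algebraMap ℚ K))
    rw [hF, map_zero] at h2
    exact h2
  have key := Lib.MP_950c68_ag.tateClasses_le_of_separable hR0 hRs h0 hq0 hnorel
    (LinearMap.baseChange E F) hF' hn j
  apply Lib.MP_950c68_ag.tateClasses_descent K E
  have h3 : LinearMap.baseChange E (F ^ n) = (LinearMap.baseChange E F) ^ n :=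
    map_pow (Module.End.baseChangeHom K E V) F n
  have h4 : algebraMap K E ((q : K) ^ n) = (q : E) ^ n := by
    rw [map_pow, map_natCast]
  rw [h3, h4]
  exact key

end Pool.Agent.Results.MP_950c68_ag.PrimeProducts
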