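import Mathlib
import Pool.Agent.Lib.MP_950c68_ag.Surf.Main

/-!
# Tate classes on products of abelian varieties

The definitions and their meaning are in `Pool/Agent/Lib/MP_950c68_ag/Dim3Defs.lean` (`IsTate`,
`Supersingular`, `Ordinary`, `Cubic`, `Distinct`, `Simple`, `HalfSystem`, `Large`),
`Pool/Agent/Lib/MP_950c68_ag/Five/Defs.lean` (`HondaTate`), `Five/OneOrbit.lean` (`Iso`),
`Five/Products.lean` (`Isolated`) and `Surf/Gs.lean` (`GenS`).

The nonempty Tate multisets whose members are the Frobenius eigenvalues of the factors `A_i` index
the eigenvectors in the spaces `E ^ j` of the products of powers of the `A_i` over finite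
extensions of the base field.  In particular the theorem covers all products of abelian surfaces
and elliptic curves, hence all products of curves of genus at most two.
-/

namespace Pool.Agent.Results.MP_950c68_ag.Products

open Pool.Agent.Lib.MP_950c68_ag.Dim3 (IsTate Supersingular Ordinary Cubic Large Simple)
open Pool.Agent.Lib.MP_950c68_ag.Five
open Pool.Agent.Lib.MP_950c68_ag.Surf

/-- All nonempty Tate multisets of Weil numbers of the given types are generated by divisor classes,
Weil classes on abelian varieties `A' × E ^ k` of dimension four and six and classes of codimension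
two on products of abelian surfaces: the members are Weil numbers of abelian varieties of dimension
at most three, of prime dimension without imaginary quadratic fields in the center (such that
different ones with centers of degree at least four which are not conjugate generate different
Galois closures or are both Weil numbers of abelian surfaces), and of simple abelian varieties of
dimension at most five which are isolated. -/
theorem result (p f : ℕ) [Fact p.Prime] (s : Multiset ℂ) (hs : s ≠ 0) (hT : IsTate (p ^ f) s)
    (htype : ∀ x ∈ s, Supersingular (p ^ f) x ∨ Ordinary p (p ^ f) x ∨ Cubic p (p ^ f) x ∨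
      Large p (p ^ f) x ∨ Iso p (p ^ f) x ∧ Isolated (p ^ f) s x)
    (hclos : ∀ x ∈ s, ∀ y ∈ s, Large p (p ^ f) x → Large p (p ^ f) y → ¬ IsConjRoot ℚ x y →
      IntermediateField.adjoin ℚ {z : ℂ | IsConjRoot ℚ x z} ≠
        IntermediateField.adjoin ℚ {z : ℂ | IsConjRoot ℚ y z} ∨
      Simple p (p ^ f) 2 x ∧ Simple p (p ^ f) 2 y) :
    GenS p (p ^ f) s := by
  have hq : p ^ f ≠ 0 := pow_ne_zero _ (Fact.out : p.Prime).ne_zero
  have hgood : GoodS p (p ^ f) s := by
    refine ⟨hT, ?_, hclos⟩
    intro x hx
    rcases htype x hx with h | h | h | h | h
    · exact Or.inl h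
    · exact Or.inr (Or.inl (Or.inl h))
    · exact Or.inr (Or.inl (Or.inr h))
    · exact Or.inr (Or.inr (Or.inl h))
    · exact Or.inr (Or.inr (Or.inr h))
  exact (GoodS.g0 rfl hq _ s le_rfl hgood).resolve_left hs

end Pool.Agent.Results.MP_950c68_ag.Products
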