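import Mathlib
import Pool.Agent.Lib.MP_950c68_ag.Quad

/-!
# Tate classes on abelian varieties with an imaginary quadratic field of endomorphisms

For an abelian variety `A` over a finite field with `q = p ^ f` elements, put
`V = H¹(Ā, ℚ_l)` (or `ℚ̄_l`) and let `F` be the geometric Frobenius.  Then
`H^{2j}(Ā) = ⋀^{2j} V`, and the space `E^j` of the Tate conjecture for `A` over the field with
`q ^ n` elements is `tateClasses K (F ^ n) (q ^ n) j`.  The theorem says that `E^j = (E^1)^j`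
for abelian varieties of odd prime power dimension `ℓ ^ a` whose Frobenius field contains an
imaginary quadratic field, when the signature is prime to `ℓ`; as `E^1` consists of divisor
classes by Tate's theorem, this gives the Tate conjecture for them in all codimensions.
-/

namespace Pool.Agent.Lib.MP_950c68_ag.Old.QuadraticSignature

open Polynomial

/-- `E^j`: the `Q ^ j`-eigenspace, in the `2 * j`-th exterior power of `V` (a subspace of the
exterior algebra), of the algebra endomorphism of the exterior algebra induced by `F`. -/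
def tateClasses (K : Type*) {V : Type*} [Field K] [AddCommGroup V] [Module K V]
    (F : V →ₗ[K] V) (Q : K) (j : ℕ) : Submodule K (ExteriorAlgebra K V) :=
  (⋀[K]^(2 * j) V) ⊓ Module.End.eigenspace (ExteriorAlgebra.map F).toLinearMap (Q ^ j)

/-- The `p`-adic slope `v(z) / v(q)` of `z` in the algebraic closure of `ℚ_p`. -/
noncomputable def slope (p : ℕ) [Fact p.Prime] (q : ℕ) (z : PadicAlgCl p) : ℝ :=
  Real.log ‖z‖ / Real.log ‖(q : PadicAlgCl p)‖

open Classical in
/-- The signature condition for `R = A ^ 2 + D * B ^ 2 = (A + √-D B) (A - √-D B)`: there are a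
square root `δ` of `-D` in the algebraic closure of `ℚ_p` and a scaling `S` such that the numbers
`S * (2 * slope z - 1)`, `z` a `p`-adic root of `R`, are integers `m z`, and the sum of the `m z`
over the roots `z` of the factor `A + δ B` of `R` is not divisible by `ℓ`. -/
def SignatureCondition (ℓ p : ℕ) [Fact p.Prime] (q : ℕ) (A B : ℚ[X]) (D : ℚ) : Prop :=
  ∃ (δ : PadicAlgCl p) (S : ℝ) (m : PadicAlgCl p → ℤ), δ ^ 2 = -(D : PadicAlgCl p) ∧
    (∀ z : PadicAlgCl p, aeval z (A ^ 2 + C D * B ^ 2) = 0 → S * (2 * slope p q z - 1) = m z) ∧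
    ¬ (ℓ : ℤ) ∣ ∑ z ∈ ((A ^ 2 + C D * B ^ 2).rootSet_finite (PadicAlgCl p)).toFinset.filter
      (fun z => aeval z A + δ * aeval z B = 0), m z

theorem result (ℓ a p f : ℕ) (hℓ : ℓ.Prime) (hℓ2 : ℓ ≠ 2) [Fact p.Prime] (hf : f ≠ 0)
    (A B : ℚ[X]) (D : ℚ) (hD : 0 < D)
    (hR : Irreducible (A ^ 2 + C D * B ^ 2)) (hdeg : (A ^ 2 + C D * B ^ 2).natDegree = 2 * ℓ ^ a)
    (hweil : ∀ z : ℂ, aeval z (A ^ 2 + C D * B ^ 2) = 0 → ‖z‖ ^ 2 = (p ^ f : ℕ))
    (hsig : SignatureCondition ℓ p (p ^ f) A B D)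
    (K V : Type*) [Field K] [CharZero K] [AddCommGroup V] [Module K V] (F : Module.End K V)
    (hF : aeval F (((A ^ 2 + C D * B ^ 2) * (X ^ 2 - C ((p ^ f : ℕ) : ℚ))).map
      (algebraMap ℚ K)) = 0)
    (n : ℕ) (hn : n ≠ 0) (j : ℕ) :
    tateClasses K (F ^ n) (((p ^ f : ℕ) : K) ^ n) j =
      (tateClasses K (F ^ n) (((p ^ f : ℕ) : K) ^ n) 1) ^ j := by
  classical
  have hp : p.Prime := Fact.out
  have : Fact ℓ.Prime := ⟨hℓ⟩
  obtain ⟨δ, S, m, hδ, hm, hT⟩ := hsig
  set R := A ^ 2 + C D * B ^ 2 with hRdef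
  have hdeg1 : R.natDegree ≠ 1 := by
    rw [hdeg]
    intro h
    have h2 : 0 < ℓ ^ a := pow_pos hℓ.pos _
    omega
  have hq0 : p ^ f ≠ 0 := pow_ne_zero _ hp.ne_zero
  -- the conjugation
  have hsymC : ∀ z : ℂ, aeval z R = 0 → ((p ^ f : ℕ) : ℂ) / z = (starRingEnd ℂ) z := by
    intro z hz
    have h1 := hweil z hz
    have hz0 : z ≠ 0 := Lib.MP_950c68_ag.ne_zero_of_root hR hdeg1 hz
    rw [div_eq_iff hz0]
    have h2 : (starRingEnd ℂ) z * z = ((‖z‖ ^ 2 : ℝ) : ℂ) := by
      rw [mul_comm, Complex.mul_conj, Complex.normSq_eq_norm_sq]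
    rw [h2, h1, Complex.ofReal_natCast]
  have hconjaeval : ∀ (P : ℚ[X]) (z : ℂ), aeval ((starRingEnd ℂ) z) P =
      (starRingEnd ℂ) (aeval z P) := by
    intro P z
    rw [aeval_def, aeval_def, hom_eval₂]
    congr 1
    exact Subsingleton.elim _ _
  have hsym : ∀ z : ℂ, aeval z R = 0 → aeval (((p ^ f : ℕ) : ℂ) / z) R = 0 := by
    intro z hz
    rw [hsymC z hz, hconjaeval, hz, map_zero]
  have hflip : ∀ z : ℂ, aeval z R = 0 → Lib.MP_950c68_ag.ratio A B (((p ^ f : ℕ) : ℂ) / z) =
      - Lib.MP_950c68_ag.ratio A B z := by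
    intro z hz
    rw [hsymC z hz]
    have h2 : Lib.MP_950c68_ag.ratio A B ((starRingEnd ℂ) z) =
        (starRingEnd ℂ) (Lib.MP_950c68_ag.ratio A B z) := by
      rw [Lib.MP_950c68_ag.ratio, Lib.MP_950c68_ag.ratio, hconjaeval, hconjaeval, map_div₀]
    rw [h2]
    have h3 := Lib.MP_950c68_ag.ratio_sq (E := ℂ) hRdef hR hz
    set r := Lib.MP_950c68_ag.ratio A B z with hr
    have h4 : (r ^ 2).im = 0 ∧ (r ^ 2).re < 0 := by
      rw [h3]
      have h5 : algebraMap ℚ ℂ D = ((D : ℝ) : ℂ) := by simp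
      rw [h5]
      constructor
      · simp
      · simp only [Complex.neg_re, Complex.ofReal_re, Left.neg_neg_iff]
        exact_mod_cast hD
    rw [sq] at h4
    simp only [Complex.mul_im, Complex.mul_re] at h4
    have h5 : r.re = 0 := by
      have h6 : r.re * r.im = 0 := by linarith [h4.1]
      rcases mul_eq_zero.mp h6 with h | h
      · exact h
      · exfalso
        rw [h] at h4
        nlinarith [h4.2, sq_nonneg r.re]
    apply Complex.ext
    · simp [h5]
    · simp
  have hδ' : δ ^ 2 = - algebraMap ℚ (PadicAlgCl p) D := by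
    rw [hδ, eq_ratCast]
  have hT' : ¬ (ℓ : ℤ) ∣ ∑ z ∈ (R.rootSet_finite (PadicAlgCl p)).toFinset.filter
      (fun z => Lib.MP_950c68_ag.ratio A B z = -δ), m z := by
    have h1 : (R.rootSet_finite (PadicAlgCl p)).toFinset.filter
        (fun z => Lib.MP_950c68_ag.ratio A B z = -δ) =
        (R.rootSet_finite (PadicAlgCl p)).toFinset.filter
        (fun z => aeval z A + δ * aeval z B = 0) := by
      apply Finset.filter_congr
      intro z hz
      rw [Set.Finite.mem_toFinset, mem_rootSet] at hz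
      have hB := Lib.MP_950c68_ag.aeval_B_ne hRdef hR hz.2
      rw [Lib.MP_950c68_ag.ratio, div_eq_iff hB]
      constructor
      · intro h; rw [h]; ring
      · intro h; linear_combination h
    rw [h1]
    exact hT
  have hnorel : Lib.MP_950c68_ag.NoRel R (p ^ f) (AlgebraicClosure K) := by
    intro c M hc
    refine Lib.MP_950c68_ag.no_relations_quad (Cx := ℂ) (W := PadicAlgCl p) hR hRdef hD.ne' hℓ2
      hdeg ?_ hsym hflip (slope p (p ^ f)) ?_ ?_ m S ?_ (-δ) ?_ hT' (IsAlgClosed.splits _) c M hc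
    · exact_mod_cast hq0
    · intro x y hx hy
      unfold slope
      rw [norm_mul, Real.log_mul (norm_ne_zero_iff.mpr hx) (norm_ne_zero_iff.mpr hy), add_div]
    · unfold slope
      exact div_self (Lib.MP_950c68_ag.log_norm_ne_zero hf)
    · intro z hz
      exact hm z (mem_rootSet.mp hz).2
    · rw [neg_sq, hδ']
  exact Lib.MP_950c68_ag.tate_eq_of_norel hR hdeg1 hq0 K V hnorel F hF n hn j

end Pool.Agent.Lib.MP_950c68_ag.Old.QuadraticSignature
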