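import Pool.Agent.Lib.TTC.FinU
import Pool.Agent.Lib.TTC.ShaCongr

/-!
# The Tate conjecture in codimension `m > 1` for fibre products of elliptic surfaces

`k` is a finite field with `q` elements, `q` odd, `n ≥ 3` is ODD, `2 m = n + 1`, and
`E_i : y ^ 2 = x (x - a_i) (x - b_i)`, `i = 1, ..., n`, are elliptic curves over `k (t)`,
`a_i, b_i ∈ k[t]`, such that the product of all the polynomials `a_i`, `b_i`, `a_i - b_i` is
squarefree and `a_i`, `b_i`, `a_i - b_i` have for each `i` the same even degree `> 0` (`Family`):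
`E_i` has good reduction at infinity, multiplicative reduction at the primes dividing
`a_i b_i (a_i - b_i)`, good reduction at the other primes, and different `E_i` have different bad
places. Let `S_i` be the minimal elliptic surface of `E_i` over the projective line, `S_1 ^ D` that
of the quadratic twist of `E_1` by a monic squarefree `D` prime to all `a_i b_i (a_i - b_i)`
(`IsTwist`), and

  `W_D = S_1 ^ D × S_2 × ... × S_n`  (fibre product over the projective line).

`W_D` is a smooth projective variety of dimension `2 m` over `k`, on which the group `{1, -1} ^ n`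
acts. By the Leray spectral sequence (Deligne) and the Kuenneth formula the part of
`H ^ (2 m) (W_D, ℚ_2 (m))` (over the algebraic closure of `k`) on which every factor `-1` acts by
`-1` is `H ^ 1 (ℙ ^ 1, j_* V_D)`, where `V_D` is the Galois module

  `V_D = T_D ⊗ ℚ_2`, `T_D = T_2(E_1) ⊗ ... ⊗ T_2(E_n) ⊗ ℤ_2(-(n - 1) / 2) ⊗ χ_D`,

`χ_D` the quadratic character of `D`, and its Frobenius invariants, the Tate classes of codimension
`m` in this part, are the locally trivial classes in `H ^ 1 (k (t), V_D)`. Let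
`N_D = T_D ⊗ ℚ_2 / ℤ_2` (`ModN` with the action `actN`). The corank of the group `Ш (N_D)` of the
locally trivial classes in `H ^ 1 (k (t), N_D)` is the dimension of the space of these Tate classes.

THEOREM. Let the degree of `D` go to infinity.
(1) For all `D` outside a set of density `0` the group `Ш (N_D)` is finite (`ShaNFinite`): `W_D` has
no Tate classes of codimension `m` in this part of its cohomology, and the Tate conjecture holds
for it.
(2) For every `i` and at least one half of the `D` moreover `E_i ^ D (k (t))` and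
`Ш (E_i ^ D) [2 ^ ∞]` are finite (`FiniteMW`, `FiniteSha2`).
For `n = 3` and `S_2`, `S_3` rational (`a_i`, `b_i` of degree `2` for `i > 1`) the Tate classes of
codimension `2` on the fourfold `W_D` outside this part come from the surface `S_1 ^ D` (BSD for
`E_1 ^ D`), from divisors and from the products of two elliptic curves over finite fields in the
bad fibres: the Tate conjecture in all codimensions holds for the fourfolds `W_D`, `D` as in (2),
`i = 1`.

`Gal(K_v ^ s / K_v)` is the decomposition group of a place of a separable closure `Ω` of `K = k (t)`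
above `v`, and all places of `Ω` are used; the places are the nontrivial valuation rings of `Ω`
which contain `k`. `Tate` and `tateMap` are defined in `Pool/Agent/Lib/TTC/TateD.lean`.
-/

set_option autoImplicit false

open Polynomial TensorProduct

namespace Pool.Agent.Results.MP_950c68_ag.TensorProducts

/-- The elliptic curve `y ^ 2 = x (x - a) (x - b) = x ^ 3 - (a + b) x ^ 2 + a b x` over `k (t)`. -/
noncomputable def curve {k : Type} [Field k] (a b : k[X]) : WeierstrassCurve (RatFunc k) where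
  a₁ := 0
  a₂ := -algebraMap k[X] (RatFunc k) (a + b)
  a₃ := 0
  a₄ := algebraMap k[X] (RatFunc k) (a * b)
  a₆ := 0

section

variable (k : Type) {K Ω : Type} [Field k] [Field K] [Field Ω] [Algebra k K] [Algebra K Ω]
variable {M : Type} [AddCommGroup M] (ρ : (Ω ≃ₐ[K] Ω) → M →+ M)

/-- `ψ` is a continuous crossed homomorphism `Gal(Ω/K) → M` (`M` discrete, with the action `ρ`)
whose class in `H ^ 1` is trivial at every place: on the decomposition group of every nontrivial
valuation ring of `Ω` which contains `k`. -/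
structure LocallyTrivial (ψ : (Ω ≃ₐ[K] Ω) → M) : Prop where
  cocycle : ∀ s t, ψ (s * t) = ψ s + ρ s (ψ t)
  cont : ∃ L : IntermediateField K Ω, FiniteDimensional K L ∧
    ∀ s t : Ω ≃ₐ[K] Ω, (∀ x ∈ L, s x = t x) → ψ s = ψ t
  loc : ∀ w : ValuationSubring Ω, w ≠ ⊤ → (∀ c : k, algebraMap K Ω (algebraMap k K c) ∈ w) →
    ∃ Q : M, ∀ s ∈ w.decompositionSubgroup K, ψ s = ρ s Q - Q

/-- `ψ` and `φ` have the same class in `H ^ 1`. -/
def Cohomologous (ψ φ : (Ω ≃ₐ[K] Ω) → M) : Prop := ∃ T : M, ∀ s, ψ s - φ s = ρ s T - T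

/-- The group `Ш` of the locally trivial classes in `H ^ 1 (K, M)` is finite. -/
def ShaFinite : Prop :=
  ∃ S : Set ((Ω ≃ₐ[K] Ω) → M), S.Finite ∧
    ∀ ψ, LocallyTrivial k ρ ψ → ∃ φ ∈ S, Cohomologous ρ ψ φ

/-- The `2`-power torsion of the group `Ш` of the locally trivial classes in `H ^ 1 (K, M)` is
finite. -/
def Sha2Finite : Prop :=
  ∃ S : Set ((Ω ≃ₐ[K] Ω) → M), S.Finite ∧
    ∀ ψ, LocallyTrivial k ρ ψ → (∃ i : ℕ, Cohomologous ρ ((2 : ℕ) ^ i • ψ) 0) →
      ∃ φ ∈ S, Cohomologous ρ ψ φ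

end

section

variable {K : Type} [Field K] (Ω : Type) [Field Ω] [Algebra K Ω] {n : ℕ}

/-- The group `W (Ω)` of the points of the elliptic curve `W` over `Ω`. -/
def Points (W : WeierstrassCurve K) : Type := (W.baseChange Ω).toAffine.Point

open scoped Classical in
noncomputable instance (W : WeierstrassCurve K) : AddCommGroup (Points Ω W) :=
  WeierstrassCurve.Affine.Point.instAddCommGroup

open scoped Classical in
/-- The action of `s` on `W (Ω)`. -/
noncomputable def actPoints (W : WeierstrassCurve K) (s : Ω ≃ₐ[K] Ω) :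
    Points Ω W →+ Points Ω W :=
  WeierstrassCurve.Affine.Point.map (W' := W) s.toAlgHom

/-- The `2`-adic Tate module `T_2 (W)`: the sequences `P_0 = 0, P_1, P_2, ...` in `W (Ω)` with
`2 P_{i+1} = P_i`. -/
def T2 (W : WeierstrassCurve K) : Type := TTC.Tate (Points Ω W)

noncomputable instance (W : WeierstrassCurve K) : AddCommGroup (T2 Ω W) :=
  AddSubgroup.toAddCommGroup (TTC.TateG (Points Ω W))

noncomputable instance (W : WeierstrassCurve K) : Module ℤ_[2] (T2 Ω W) :=
  TTC.instModulePadicIntOfNatNatTate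

/-- The action of `s` on `T_2 (W)`. -/
noncomputable def actT2 (W : WeierstrassCurve K) (s : Ω ≃ₐ[K] Ω) : T2 Ω W →ₗ[ℤ_[2]] T2 Ω W :=
  TTC.tateMap (actPoints Ω W s)

/-- `T_2 (W 1) ⊗ ... ⊗ T_2 (W n)`, tensor product over `ℤ_2`. -/
def Tens (W : Fin n → WeierstrassCurve K) : Type := ⨂[ℤ_[2]] i, T2 Ω (W i)

noncomputable instance (W : Fin n → WeierstrassCurve K) : AddCommGroup (Tens Ω W) :=
  PiTensorProduct.instAddCommGroup

noncomputable instance (W : Fin n → WeierstrassCurve K) : Module ℤ_[2] (Tens Ω W) :=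
  PiTensorProduct.instModule

/-- The tensor product of the actions of `s` on the Tate modules. -/
noncomputable def actTens (W : Fin n → WeierstrassCurve K) (s : Ω ≃ₐ[K] Ω) :
    Tens Ω W →ₗ[ℤ_[2]] Tens Ω W :=
  PiTensorProduct.map fun i => actT2 Ω (W i) s

/-- `(T_2 (W 1) ⊗ ... ⊗ T_2 (W n)) ⊗ ℚ_2 / ℤ_2`, tensor products over `ℤ_2`. -/
def ModN (W : Fin n → WeierstrassCurve K) : Type :=
  Tens Ω W ⊗[ℤ_[2]] (ℚ_[2] ⧸ (1 : Submodule ℤ_[2] ℚ_[2]))

noncomputable instance (W : Fin n → WeierstrassCurve K) : AddCommGroup (ModN Ω W) :=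
  TensorProduct.addCommGroup

noncomputable instance (W : Fin n → WeierstrassCurve K) : Module ℤ_[2] (ModN Ω W) :=
  TensorProduct.instModule

/-- The action of `s` on `ModN Ω W` by the tensor product of the actions on the Tate modules. -/
noncomputable def actMod (W : Fin n → WeierstrassCurve K) (s : Ω ≃ₐ[K] Ω) :
    ModN Ω W →ₗ[ℤ_[2]] ModN Ω W :=
  TensorProduct.map (actTens Ω W s) LinearMap.id

/-- The quadratic character of `d ∈ K`: `1` if `s` fixes the square roots of `d` in `Ω`, otherwise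
`-1`. -/
noncomputable def quadChar (d : K) (s : Ω ≃ₐ[K] Ω) : ℤ :=
  open Classical in if ∀ r : Ω, r ^ 2 = algebraMap K Ω d → s r = r then 1 else -1

/-- The power `-m` of the `2`-adic cyclotomic character. -/
noncomputable def cycPow (m : ℕ) (s : Ω ≃ₐ[K] Ω) : ℤ_[2]ˣ :=
  (cyclotomicCharacter Ω 2 s.toRingEquiv)⁻¹ ^ m

/-- The action of `s` on `ModN Ω W`, twisted by the power `-m` of the cyclotomic character and by
the quadratic character of `d`. -/
noncomputable def actN (W : Fin n → WeierstrassCurve K) (m : ℕ) (d : K) (s : Ω ≃ₐ[K] Ω) :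
    ModN Ω W →+ ModN Ω W :=
  quadChar Ω d s • ((cycPow Ω m s : ℤ_[2]) • actMod Ω W s).toAddMonoidHom

end

section

variable {k : Type} [Field k] {n : ℕ}

/-- The product of the polynomials `a_i b_i (a_i - b_i)`. -/
noncomputable def badP (a b : Fin n → k[X]) : k[X] := ∏ i, (a i * b i * (a i - b i))

/-- The hypotheses on the curves `y ^ 2 = x (x - a_i) (x - b_i)`: the product of all the polynomials
`a_i`, `b_i`, `a_i - b_i` is squarefree, and for each `i` the three polynomials `a_i`, `b_i`,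
`a_i - b_i` have the same degree, which is even and positive. -/
structure Family (a b : Fin n → k[X]) : Prop where
  squarefree : Squarefree (badP a b)
  deg_b : ∀ i, (b i).natDegree = (a i).natDegree
  deg_sub : ∀ i, (a i - b i).natDegree = (a i).natDegree
  even : ∀ i, Even (a i).natDegree
  pos : ∀ i, 0 < (a i).natDegree

/-- The twists: the monic squarefree polynomials of degree `N` prime to `badP a b`. -/
def IsTwist (a b : Fin n → k[X]) (N : ℕ) (D : k[X]) : Prop :=
  D.Monic ∧ Squarefree D ∧ IsCoprime D (badP a b) ∧ D.natDegree = N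

/-- The number of the twists of degree `N` with the property `P`. -/
noncomputable def count (a b : Fin n → k[X]) (N : ℕ) (P : k[X] → Prop) : ℝ :=
  Nat.card {D : k[X] // IsTwist a b N D ∧ P D}

/-- The group of the locally trivial classes in `H ^ 1 (k (t), N_D)` is finite, where `N_D` is the
tensor product of the Tate modules of the curves `y ^ 2 = x (x - a_i) (x - b_i)`, tensored with
`ℚ_2 / ℤ_2` and twisted by the power `-(n - 1) / 2` of the cyclotomic character and by the quadratic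
character of `D`. -/
def ShaNFinite (a b : Fin n → k[X]) (D : k[X]) : Prop :=
  ShaFinite k (actN (SeparableClosure (RatFunc k)) (fun i => curve (a i) (b i)) ((n - 1) / 2)
    (algebraMap k[X] (RatFunc k) D))

/-- The group of the `k (t)`-rational points of `y ^ 2 = x (x - D a) (x - D b)` is finite. -/
def FiniteMW (a b D : k[X]) : Prop :=
  Finite (curve (D * a) (D * b)).toAffine.Point

/-- The `2`-power torsion of the Tate-Shafarevich group of `y ^ 2 = x (x - D a) (x - D b)` is
finite. -/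
def FiniteSha2 (a b D : k[X]) : Prop :=
  Sha2Finite k (actPoints (SeparableClosure (RatFunc k)) (curve (D * a) (D * b)))

theorem curve_eq (a b : k[X]) : curve a b = Sm.L.crv2 a b := by
  ext <;> simp [curve, SmithE.crv]

section

variable {K : Type} [Field K] (Ω : Type) [Field Ω] [Algebra K Ω]

section

variable (k) {Ω} [Algebra k K] {M : Type} [AddCommGroup M] (ρ : (Ω ≃ₐ[K] Ω) → M →+ M)

private theorem isSha_iff (ψ : (Ω ≃ₐ[K] Ω) → M) : SmJ.L.IsSha k ρ ψ ↔ LocallyTrivial k ρ ψ :=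
  ⟨fun h => ⟨h.1, h.2, h.3⟩, fun h => ⟨h.1, h.2, h.3⟩⟩

private theorem mk_eq_iff (x y : SmJ.L.ZSha k ρ) :
    (QuotientAddGroup.mk x : SmJ.L.Sha k ρ) = QuotientAddGroup.mk y ↔
      Cohomologous ρ x.1 y.1 := by
  rw [QuotientAddGroup.eq, AddSubgroup.mem_addSubgroupOf]
  constructor
  · rintro ⟨T, hT⟩
    refine ⟨-T, fun s => ?_⟩
    have h1 : -x.1 s + y.1 s = ρ s T - T := hT s
    rw [map_neg, ← neg_sub', ← h1]
    abel
  · rintro ⟨T, hT⟩
    refine ⟨-T, fun s => ?_⟩
    change -x.1 s + y.1 s = _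
    rw [map_neg, ← neg_sub', ← hT s]
    abel

private theorem shaFinite_of (P : SmJ.L.Sha k ρ → Prop) (h : Finite {x // P x}) :
    ∃ S : Set ((Ω ≃ₐ[K] Ω) → M), S.Finite ∧
      ∀ ψ, ∀ hψ : SmJ.L.IsSha k ρ ψ, P (QuotientAddGroup.mk ⟨ψ, hψ⟩) →
        ∃ φ ∈ S, Cohomologous ρ ψ φ := by
  refine ⟨Set.range fun x : {x // P x} => (Quotient.out x.1 : SmJ.L.ZSha k ρ).1,
    Set.finite_range _, fun ψ hψ hP => ⟨_, ⟨⟨_, hP⟩, rfl⟩, ?_⟩⟩
  refine (mk_eq_iff k ρ ⟨ψ, hψ⟩ _).1 ?_
  exact (QuotientAddGroup.out_eq' _).symm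

private theorem shaFinite_iff : ShaFinite k ρ ↔ Finite (SmJ.L.Sha k ρ) := by
  constructor
  · rintro ⟨S, hS, h⟩
    have := hS.to_subtype
    choose f hf hf' using fun x : SmJ.L.Sha k ρ =>
      h (Quotient.out x : SmJ.L.ZSha k ρ).1 ((isSha_iff k ρ _).1 (Quotient.out x).2)
    refine Finite.of_injective (β := S) (fun x => ⟨f x, hf x⟩) fun x y hxy => ?_
    have h1 : f x = f y := congrArg Subtype.val hxy
    obtain ⟨T, hT⟩ := hf' x
    obtain ⟨T', hT'⟩ := hf' y
    rw [← QuotientAddGroup.out_eq' x, ← QuotientAddGroup.out_eq' y]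
    refine (mk_eq_iff k ρ _ _).2 ⟨T - T', fun s => ?_⟩
    rw [map_sub, sub_sub_sub_comm, ← hT, ← hT', h1]
    abel
  · intro h
    obtain ⟨S, hS, h1⟩ := shaFinite_of k ρ (fun _ => True)
      (Finite.of_injective (fun x => x.1) Subtype.val_injective)
    exact ⟨S, hS, fun ψ hψ => h1 ψ ((isSha_iff k ρ ψ).2 hψ) trivial⟩

private theorem sha2Finite_of (h : Finite (SmJ.L.Sha2 k ρ)) : Sha2Finite k ρ := by
  obtain ⟨S, hS, h1⟩ := shaFinite_of k ρ (fun x => x ∈ SmJ.L.Sha2 k ρ) h
  refine ⟨S, hS, fun ψ hψ hi => h1 ψ ((isSha_iff k ρ ψ).2 hψ) ?_⟩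
  obtain ⟨i, hi⟩ := hi
  exact ⟨i, (mk_eq_iff k ρ _ 0).2 hi⟩

end

variable (W : Fin n → WeierstrassCurve K)

private noncomputable def tensEquiv : (⨂[ℤ_[2]] i, TTC.T2 Ω (W i)) ≃ₗ[ℤ_[2]] Tens Ω W :=
  LinearEquiv.refl ℤ_[2] (Tens Ω W)

private noncomputable def modEquiv : TTC.ModN Ω W ≃ₗ[ℤ_[2]] ModN Ω W :=
  TensorProduct.congr (tensEquiv Ω W) (LinearEquiv.refl ℤ_[2] _)

private theorem tensEquiv_act (s : Ω ≃ₐ[K] Ω) (x : ⨂[ℤ_[2]] i, TTC.T2 Ω (W i)) :
    actTens Ω W s (tensEquiv Ω W x) =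
      tensEquiv Ω W (PiTensorProduct.map (fun i => TTC.actT2 Ω (W i) s) x) := rfl

private noncomputable def tm (x : Tens Ω W) (y : ℚ_[2] ⧸ (1 : Submodule ℤ_[2] ℚ_[2])) :
    ModN Ω W :=
  x ⊗ₜ[ℤ_[2]] y

private theorem modEquiv_tmul (x : ⨂[ℤ_[2]] i, TTC.T2 Ω (W i))
    (y : ℚ_[2] ⧸ (1 : Submodule ℤ_[2] ℚ_[2])) :
    modEquiv Ω W (x ⊗ₜ[ℤ_[2]] y) = tm Ω W (tensEquiv Ω W x) y := rfl

private theorem actMod_tmul (s : Ω ≃ₐ[K] Ω) (x : Tens Ω W)
    (y : ℚ_[2] ⧸ (1 : Submodule ℤ_[2] ℚ_[2])) :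
    actMod Ω W s (tm Ω W x y) = tm Ω W (actTens Ω W s x) y := rfl

private theorem actMod_equiv (s : Ω ≃ₐ[K] Ω) (x : TTC.ModN Ω W) :
    actMod Ω W s (modEquiv Ω W x) =
      modEquiv Ω W (TensorProduct.map (PiTensorProduct.map fun i => TTC.actT2 Ω (W i) s)
        LinearMap.id x) := by
  induction x using TensorProduct.induction_on with
  | zero => simp only [map_zero]
  | tmul x y =>
    refine (congrArg (actMod Ω W s) (modEquiv_tmul Ω W x y)).trans ?_
    refine (actMod_tmul Ω W s _ y).trans ?_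
    rw [tensEquiv_act, TensorProduct.map_tmul]
    exact (modEquiv_tmul Ω W _ y).symm
  | add x y hx hy => simp only [map_add, hx, hy]

private theorem modEquiv_act (m : ℕ) (d : K) (s : Ω ≃ₐ[K] Ω) (x : TTC.ModN Ω W) :
    actN Ω W m d s (modEquiv Ω W x) = modEquiv Ω W (TTC.actN Ω W m d s x) := by
  change quadChar Ω d s • ((cycPow Ω m s : ℤ_[2]) • actMod Ω W s (modEquiv Ω W x)) = _
  rw [actMod_equiv, ← map_smul, ← map_zsmul]
  rfl

end

theorem shaN_iff (a b : Fin n → k[X]) (D : k[X]) :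
    ShaNFinite a b D ↔ Finite (TTC.ShaN a b D) := by
  have h : (fun i => curve (a i) (b i)) = fun i => Sm.L.crv2 (a i) (b i) :=
    funext fun i => curve_eq _ _
  have h1 : ∀ W W' : Fin n → WeierstrassCurve (RatFunc k), W = W' → ∀ m d,
      (Finite (SmJ.L.Sha k (actN (SeparableClosure (RatFunc k)) W m d)) ↔
        Finite (SmJ.L.Sha k (TTC.actN (SeparableClosure (RatFunc k)) W' m d))) := by
    rintro W _ rfl m d
    exact (TTC.sha_congr_iff k (modEquiv _ W).toAddEquiv fun s x => modEquiv_act _ W m d s x).symm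
  exact (shaFinite_iff k _).trans (h1 _ _ h _ _)

theorem finiteMW_iff (a b D : k[X]) : FiniteMW a b D ↔ TTC.FiniteMW a b D := by
  unfold FiniteMW TTC.FiniteMW
  rw [curve_eq]

private theorem zsha_eq {K Ω : Type} [Field K] [Algebra k K] [Field Ω] [Algebra K Ω]
    (W : WeierstrassCurve K) : SmJ.L.ZSha k (Sm.L.gal Ω W) = Sm.L.ZSha k Ω W :=
  AddSubgroup.ext fun _ => ⟨fun h => ⟨h.1, h.2, h.3⟩, fun h => ⟨h.1, h.2, h.3⟩⟩

private theorem sha2_of {K Ω : Type} [Field K] [Algebra k K] [Field Ω] [Algebra K Ω]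
    (W W' : WeierstrassCurve K) (hW : W = W') (h0 : Finite (Sm.L.Sha2 k Ω W')) :
    Sha2Finite k (actPoints Ω W) := by
  subst hW
  have h : ∀ (A : Type) (_ : AddCommGroup A) (Z Z' B B' : AddSubgroup A), Z = Z' → B = B' →
      ∀ (X : AddSubgroup (Z ⧸ B.addSubgroupOf Z)) (X' : AddSubgroup (Z' ⧸ B'.addSubgroupOf Z')),
      (∀ x, x ∈ X ↔ ∃ i : ℕ, 2 ^ i • x = 0) → (∀ x, x ∈ X' ↔ ∃ i : ℕ, 2 ^ i • x = 0) →
      (Finite X ↔ Finite X') := by
    rintro A _ Z _ B _ rfl rfl X X' hX hX'
    have : X = X' := AddSubgroup.ext fun x => by rw [hX, hX']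
    rw [this]
  have h1 : Finite (SmJ.L.Sha2 k (Sm.L.gal Ω W)) :=
    (h _ _ _ _ _ _ (zsha_eq W) rfl _ _ (fun _ => Iff.rfl) fun _ => Iff.rfl).2 h0
  exact sha2Finite_of k (actPoints Ω W) h1

theorem finiteSha2_of {a b D : k[X]} (h : TTC.FiniteSha2 a b D) : FiniteSha2 a b D :=
  sha2_of _ _ (curve_eq _ _) h

private theorem count_eq (a b : Fin n → k[X]) (N : ℕ) (P P' : k[X] → Prop)
    (h : ∀ D, P D ↔ P' D) : count a b N P =
      (Nat.card {D : k[X] // TTC.IsTwist a b N D ∧ P' D} : ℝ) := by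
  unfold count
  congr 1
  exact Nat.card_congr (Equiv.subtypeEquivRight fun D => and_congr Iff.rfl (h D))

end

/-- **The theorem.** There is a constant `c > 0` such that for every `ε > 0` and all large `N`:
there are at least `c q ^ N` twists `D` of degree `N`; for all but a proportion `ε` of them the
group `Ш (N_D)` is finite; and for every `i` this is the case and `y ^ 2 = x (x - D a_i) (x - D b_i)`
has a finite Mordell-Weil group and a finite `2`-power torsion of its Tate-Shafarevich group, for at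
least a proportion `1 / 2 - ε` of them. -/
theorem result (k : Type) [Field k] [Finite k] (h2 : (2 : k) ≠ 0) (n : ℕ) (hn : Odd n)
    (hn3 : 3 ≤ n) (a b : Fin n → k[X]) (h : Family a b) :
    ∃ c : ℝ, 0 < c ∧ ∀ ε : ℝ, 0 < ε → ∃ N₀ : ℕ, ∀ N ≥ N₀,
      c * (Nat.card k : ℝ) ^ N ≤ count a b N (fun _ => True) ∧
      count a b N (fun D => ¬ ShaNFinite a b D) ≤ ε * count a b N (fun _ => True) ∧
      ∀ i, (1 / 2 - ε) * count a b N (fun _ => True) ≤
        count a b N fun D => ShaNFinite a b D ∧ FiniteMW (a i) (b i) D ∧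
          FiniteSha2 (a i) (b i) D := by
  obtain ⟨c, hc, h1⟩ := TTC.final_U h2 hn hn3 a b
    ⟨h.squarefree, h.deg_b, h.deg_sub, h.even, h.pos⟩
  have hT : ∀ N, count a b N (fun _ => True) =
      (Nat.card {D : k[X] // TTC.IsTwist a b N D} : ℝ) := fun N => by
    rw [count_eq a b N _ (fun _ => True) fun _ => Iff.rfl]
    simp only [and_true]
  refine ⟨c, hc, fun ε hε => ?_⟩
  obtain ⟨N₀, h2⟩ := h1 ε hε
  refine ⟨N₀, fun N hN => ?_⟩
  obtain ⟨h3, h4, h5⟩ := h2 N hN
  rw [hT]
  refine ⟨h3, ?_, fun i => (h5 i).trans ?_⟩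
  · rw [count_eq a b N _ (fun D => ¬ Finite (TTC.ShaN a b D)) fun D => not_congr (shaN_iff a b D)]
    exact h4
  · have f1 : Finite {D : k[X] // IsTwist a b N D ∧ ShaNFinite a b D ∧
        FiniteMW (a i) (b i) D ∧ FiniteSha2 (a i) (b i) D} :=
      TTC.LowT_fin N _ fun D h => h.1.2.2.2
    refine Nat.cast_le.2 (Nat.card_le_card_of_injective (fun D => ⟨D.1, D.2.1,
      (shaN_iff a b D.1).2 D.2.2.1, (finiteMW_iff _ _ _).2 D.2.2.2.1,
      finiteSha2_of D.2.2.2.2⟩) fun D D' h => Subtype.ext (congrArg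
        (fun z : {D : k[X] // IsTwist a b N D ∧ ShaNFinite a b D ∧
        FiniteMW (a i) (b i) D ∧ FiniteSha2 (a i) (b i) D} => z.1) h))

end Pool.Agent.Results.MP_950c68_ag.TensorProducts
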