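import Pool.Agent.Lib.SmNH.Fin.Done2

/-!
The quadratic twists of the Jacobian of a hyperelliptic curve `y ^ 2 = f(x)`, `deg f = 2 g + 1`, over
any global function field `K` of characteristic prime to `(2 g + 1)!`, when the Galois group of `f`
is as big as possible.

`J_d` is the Jacobian of `y ^ 2 = f_d(x)`, `f_d = f.scaleRoots d` the polynomial whose roots are `d`
times those of `f`, that is of the quadratic twist of `y ^ 2 = f(x)` by `d ∈ Kˣ / Kˣ²`. The twists are
ordered by the degree of the divisor of the places at which `d` has odd order, which are the places
ramified in `K (√ d)`. Let `V = J_d(K ^ s)[2 ^ ∞]` and let `W = V ⊗ Z[ε] / ε ^ 2` with the action of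
`Gal(K ^ s / K)` twisted by `s ↦ 1 + deg (s) ε`, where `s` acts as the `deg (s)`-th power of the
Frobenius automorphism on the constants. The Selmer groups of `V` and of `W` have the same corank
`r ≤ 1` for all `d` outside a set of density `0`. As these coranks are the dimensions of the kernels
of `F - 1` and of `(F - 1) ^ 2` on the cohomology group whose characteristic polynomial of the
Frobenius `F` is the `L`-function of `J_d`, the order of vanishing of the `L`-function is `r`.
Let `M` be a finite nonempty set of places at which the curve `y ^ 2 = f(x)` has a node. Among the `d`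
which are unramified at some place of `M` (a set of positive lower density) one half of the `J_d` has
corank `0` and a finite `2`-power torsion of its Tate-Shafarevich group, and one half has corank `1`.
So the Tate conjecture holds for the smooth projective surfaces over `k` fibred over the curve with
function field `K` with generic fibre `y ^ 2 = f_d(x)`, for the `d` of the first half.

`J_d(Ω)`, `Ω` a separable closure of `K`, is the class group of `Ω[x, y] / (y ^ 2 - f_d)` (the curve
has one point at infinity). All Selmer groups are taken over `Ω`, with the local conditions at the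
decomposition groups of all places; as `Gal(K_v ^ s / K_v)` is the decomposition group of a place of
`Ω` above `v`, and a class of `H ^ 1 (K, J)` is trivial over the henselization at `v` if and only if it
is trivial over the completion at `v`, these are the usual local conditions.
-/

set_option autoImplicit false

open Polynomial Pool.Agent.SmJ.R Pool.Agent.SmN.Stm
open Pool.Agent.BSDFF (Place)

namespace Pool.Agent.Results.MP_950c68_ag.TwistsOverGlobalFields

/-- The coranks of the Selmer groups of `V = J_d[2 ^ ∞]` and of `W = V ⊗ Z[ε] / ε ^ 2` for the
quadratic twists `J_d`. -/
theorem result (k K : Type) [Field k] [Finite k] [Field K] [Algebra k K]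
    [Algebra.EssFiniteType k K] (hK : Algebra.trdeg k K = 1) (g : ℕ) (hg : 1 ≤ g)
    (hn : ((2 * g + 1).factorial : k) ≠ 0) (f : K[X]) [OddDeg f] (hm : f.Monic)
    (hs : f.Separable) (hd : f.natDegree = 2 * g + 1) (hG : BigGal k f g) :
    (∀ N, (Twists k N fun _ : K => True).Finite) ∧
    AlmostAll k (fun j (d : K) => GoodP k (f.scaleRoots d) j ∧ OrdJ k (f.scaleRoots d)) ∧
    ∀ M : Finset (Place k K), M.Nonempty → (∀ v ∈ M, Node v f) →
      Halves k (fun d : K => ∃ v ∈ M, EvenAt v d) (fun d => ZeroP k (f.scaleRoots d))
        (fun d => OneP k (f.scaleRoots d)) :=
  Pool.Agent.SmNH.Fnl.fin_J k K hK hg hn f hm hs hd hG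

end Pool.Agent.Results.MP_950c68_ag.TwistsOverGlobalFields
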